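import Pool.Agent.R563.XT.Stm

set_option autoImplicit false

/-!
# Piece COR: fixing all blocks but one
-/

namespace Pool.Agent.R563.XT

open Finset
open scoped Classical

namespace Cor

lemma abs_sg (b : Bool) : |sg b| = 1 := by
  unfold sg; split_ifs <;> simp

lemma abs_prod_le_one {ι : Type} (s : Finset ι) (f : ι → ℝ) (h : ∀ i ∈ s, |f i| = 1) :
    |∏ i ∈ s, f i| = 1 := by
  rw [Finset.abs_prod]
  exact Finset.prod_eq_one h

/-- the configuration with value `x` at `i` -/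
def comb {k : ℕ} {α : Type} (i : Fin k) (x : α) (ρ : {j : Fin k // j ≠ i} → α) : Fin k → α :=
  (Equiv.funSplitAt i α).symm (x, ρ)

lemma comb_apply {k : ℕ} {α : Type} (i : Fin k) (x : α) (ρ : {j : Fin k // j ≠ i} → α) (j : Fin k) :
    comb i x ρ j = if h : j = i then x else ρ ⟨j, h⟩ := by
  unfold comb
  rw [Equiv.funSplitAt_symm_apply]

lemma sum_comb {k : ℕ} {α : Type} [Fintype α] (i : Fin k) (Φ : (Fin k → α) → ℝ) :
    ∑ e, Φ e = ∑ ρ : {j : Fin k // j ≠ i} → α, ∑ x : α, Φ (comb i x ρ) := by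
  rw [← Equiv.sum_comp (Equiv.funSplitAt i α).symm Φ, Fintype.sum_prod_type, Finset.sum_comm]
  rfl

lemma card_comb {k : ℕ} {α : Type} [Fintype α] (i : Fin k) :
    Fintype.card ({j : Fin k // j ≠ i} → α) * Fintype.card α = Fintype.card α ^ k := by
  have := Fintype.card_congr (Equiv.funSplitAt i α)
  rw [Fintype.card_prod, Fintype.card_fun, Fintype.card_fin] at this
  rw [this, mul_comm]

/-- the estimate of one slice -/
lemma slice {k h v : ℕ} {R : Type} (a : R → Fin h → (Fin v → Bool) → Bool)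
    (μ : Finset R) (ε : ℝ) (hD : Disc a μ ε) (W : Finset (Fin k × Fin k × R)) (i' j' : Fin k)
    (hodd : Odd (W.filter fun q => q.1 = i' ∧ q.2.1 = j' ∧ q.2.2 ∈ μ).card)
    (F : (Fin k → Fin h) → ℝ) (G : (Fin k → Fin v → Bool) → ℝ)
    (hF : ∀ e, |F e| ≤ 1) (hG : ∀ Y, |G Y| ≤ 1)
    (ρ : {j : Fin k // j ≠ i'} → Fin h) (τ : {j : Fin k // j ≠ j'} → Fin v → Bool) :
    |∑ x, ∑ y, F (comb i' x ρ) * G (comb j' y τ) *
      ∏ q ∈ W, sg (a q.2.2 (comb i' x ρ q.1) (comb j' y τ q.2.1))| ≤ ε * (h * 2 ^ v) := by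
  set w : Finset R := (W.filter fun q => q.2.1 = j' ∧ q.1 = i').image (fun q => q.2.2) with hw
  have hinj : Set.InjOn (fun q : Fin k × Fin k × R => q.2.2)
      (W.filter fun q => q.2.1 = j' ∧ q.1 = i') := by
    intro p hp q hq hpq
    rw [Finset.mem_coe, Finset.mem_filter] at hp hq
    exact Prod.ext (hp.2.2.trans hq.2.2.symm) (Prod.ext (hp.2.1.trans hq.2.1.symm) hpq)
  have hodd' : Odd (w ∩ μ).card := by
    have e1 : w ∩ μ = (W.filter fun q => q.1 = i' ∧ q.2.1 = j' ∧ q.2.2 ∈ μ).image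
        (fun q => q.2.2) := by
      ext r
      simp only [hw, Finset.mem_inter, Finset.mem_image, Finset.mem_filter]
      constructor
      · rintro ⟨⟨q, ⟨h1, h2, h3⟩, rfl⟩, h4⟩
        exact ⟨q, ⟨h1, h3, h2, h4⟩, rfl⟩
      · rintro ⟨q, ⟨h1, h2, h3, h4⟩, rfl⟩
        exact ⟨⟨q, ⟨h1, h3, h2⟩, rfl⟩, h4⟩
    rw [e1, Finset.card_image_of_injOn]
    · exact hodd
    · intro p hp q hq hpq
      rw [Finset.mem_coe, Finset.mem_filter] at hp hq
      exact Prod.ext (hp.2.1.trans hq.2.1.symm) (Prod.ext (hp.2.2.1.trans hq.2.2.1.symm) hpq)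
  set F' : Fin h → ℝ := fun x => F (comb i' x ρ) * ∏ q ∈ W,
    (if hq : q.2.1 = j' then 1 else sg (a q.2.2 (comb i' x ρ q.1) (τ ⟨q.2.1, hq⟩))) with hF'
  set G' : (Fin v → Bool) → ℝ := fun y => G (comb j' y τ) * ∏ q ∈ W,
    (if q.2.1 = j' then (if hq : q.1 = i' then 1 else sg (a q.2.2 (ρ ⟨q.1, hq⟩) y)) else 1)
    with hG'
  have key : ∀ x y, F (comb i' x ρ) * G (comb j' y τ) *
      ∏ q ∈ W, sg (a q.2.2 (comb i' x ρ q.1) (comb j' y τ q.2.1)) =
      F' x * G' y * ∏ r ∈ w, sg (a r x y) := by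
    intro x y
    have e2 : ∏ r ∈ w, sg (a r x y) = ∏ q ∈ W,
        (if q.2.1 = j' ∧ q.1 = i' then sg (a q.2.2 x y) else 1) := by
      rw [hw, Finset.prod_image hinj, Finset.prod_filter]
    have e3 : ∏ q ∈ W, sg (a q.2.2 (comb i' x ρ q.1) (comb j' y τ q.2.1)) =
        (∏ q ∈ W, (if hq : q.2.1 = j' then (1 : ℝ) else
          sg (a q.2.2 (comb i' x ρ q.1) (τ ⟨q.2.1, hq⟩)))) *
        (∏ q ∈ W, (if q.2.1 = j' then (if hq : q.1 = i' then 1 else
          sg (a q.2.2 (ρ ⟨q.1, hq⟩) y)) else 1)) *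
        (∏ q ∈ W, (if q.2.1 = j' ∧ q.1 = i' then sg (a q.2.2 x y) else 1)) := by
      rw [← Finset.prod_mul_distrib, ← Finset.prod_mul_distrib]
      refine Finset.prod_congr rfl fun q _ => ?_
      by_cases h1 : q.2.1 = j'
      · by_cases h2 : q.1 = i'
        · simp [h1, h2, comb_apply]
        · simp [h1, h2, comb_apply]
      · simp [h1, comb_apply j']
    rw [e2, e3, hF', hG']
    ring
  simp_rw [key]
  apply hD w hodd'
  · intro x
    rw [hF', abs_mul, abs_prod_le_one, mul_one]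
    · exact hF _
    · intro q _
      split_ifs
      · exact abs_one
      · exact abs_sg _
  · intro y
    rw [hG', abs_mul, abs_prod_le_one, mul_one]
    · exact hG _
    · intro q _
      split_ifs
      · exact abs_one
      · exact abs_sg _
      · exact abs_one

end Cor

open Cor in
theorem cor : S_COR := by
  intro k h v R a μ ε hD W i' j' hodd F G hF hG
  have e1 : ∑ e, ∑ Y, F e * G Y * ∏ q ∈ W, sg (a q.2.2 (e q.1) (Y q.2.1)) =
      ∑ ρ : {j : Fin k // j ≠ i'} → Fin h, ∑ τ : {j : Fin k // j ≠ j'} → Fin v → Bool,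
        ∑ x, ∑ y, F (comb i' x ρ) * G (comb j' y τ) *
          ∏ q ∈ W, sg (a q.2.2 (comb i' x ρ q.1) (comb j' y τ q.2.1)) := by
    rw [sum_comb i']
    refine Finset.sum_congr rfl fun ρ _ => ?_
    rw [Finset.sum_comm]
    rw [Finset.sum_congr rfl fun Y _ => rfl]
    rw [sum_comb j' (fun Y => ∑ x, F (comb i' x ρ) * G Y *
      ∏ q ∈ W, sg (a q.2.2 (comb i' x ρ q.1) (Y q.2.1)))]
    refine Finset.sum_congr rfl fun τ _ => ?_
    rw [Finset.sum_comm]
  rw [e1]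
  have e2 : ∀ (ρ : {j : Fin k // j ≠ i'} → Fin h) (τ : {j : Fin k // j ≠ j'} → Fin v → Bool),
      |∑ x, ∑ y, F (comb i' x ρ) * G (comb j' y τ) *
      ∏ q ∈ W, sg (a q.2.2 (comb i' x ρ q.1) (comb j' y τ q.2.1))| ≤ ε * (h * 2 ^ v) :=
    fun ρ τ => slice a μ ε hD W i' j' hodd F G hF hG ρ τ
  refine (Finset.abs_sum_le_sum_abs _ _).trans ?_
  refine (Finset.sum_le_sum fun ρ _ => (Finset.abs_sum_le_sum_abs _ _).trans
    (Finset.sum_le_sum fun τ _ => e2 ρ τ)).trans ?_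
  rw [Finset.sum_const, Finset.sum_const, Finset.card_univ, Finset.card_univ, nsmul_eq_mul,
    nsmul_eq_mul]
  have c1 := card_comb (α := Fin h) i'
  have c2 := card_comb (α := Fin v → Bool) j'
  rw [Fintype.card_fin] at c1
  have c3 : Fintype.card (Fin v → Bool) = 2 ^ v := by simp
  rw [c3] at c2
  have c1' : (Fintype.card ({j : Fin k // j ≠ i'} → Fin h) : ℝ) * h = (h : ℝ) ^ k := by
    exact_mod_cast c1
  have c2' : (Fintype.card ({j : Fin k // j ≠ j'} → Fin v → Bool) : ℝ) * 2 ^ v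
      = (2 : ℝ) ^ (k * v) := by
    rw [mul_comm k v, pow_mul]
    exact_mod_cast c2
  rw [← c1', ← c2']
  apply le_of_eq
  ring

end Pool.Agent.R563.XT
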