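import Pool.Agent.R563.XT.Stm

set_option autoImplicit false

/-!
# Piece CORE
-/

namespace Pool.Agent.R563.XT

open Finset
open scoped Classical

namespace CoreAux

/-- the tree cut at depth `n` -/
def cut {c : ℕ} : ℕ → Tree c Bool → Tree c Bool
  | _, Tree.answer o => Tree.answer o
  | 0, Tree.probe _ _ => Tree.answer false
  | n + 1, Tree.probe σ next => Tree.probe σ fun b => cut n (next b)

theorem cut_out {c : ℕ} (b : Fin c → Bool) (T : Tree c Bool) :
    ∀ n, T.probes b ≤ n → (cut n T).out b = T.out b := by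
  induction T with
  | answer o =>
    intro n _
    cases n <;> rfl
  | probe σ next ih =>
    intro n hn
    cases n with
    | zero => simp [Tree.probes] at hn
    | succ n =>
      have h1 : (next (b σ)).probes b ≤ n := by
        simp only [Tree.probes] at hn
        omega
      exact ih (b σ) n h1

theorem sg_abs (b : Bool) : |sg b| = 1 := by
  cases b <;> simp [sg]

theorem sg_sq (b : Bool) : sg b * sg b = 1 := by
  cases b <;> simp [sg]

theorem sg_xor (b b' : Bool) : sg (b ^^ b') = -(sg b * sg b') := by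
  cases b <;> cases b' <;> simp [sg]

theorem tree_bound {c : ℕ} {Θ : Type} [Fintype Θ] (H : Θ → ℝ) (bit : Θ → Fin c → Bool) (B : ℝ)
    (hB : 0 ≤ B)
    (h : ∀ l : List (Fin c), |∑ θ, H θ * (l.map fun σ => sg (bit θ σ)).prod| ≤ B) (n : ℕ) :
    ∀ (T : Tree c Bool) (l : List (Fin c)),
      |∑ θ, H θ * (l.map fun σ => sg (bit θ σ)).prod * sg ((cut n T).out (bit θ))| ≤ 2 ^ n * B := by
  have hans : ∀ (m : ℕ) (o : Bool) (l : List (Fin c)),
      |∑ θ, H θ * (l.map fun σ => sg (bit θ σ)).prod * sg o| ≤ 2 ^ m * B := by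
    intro m o l
    rw [← Finset.sum_mul, abs_mul, sg_abs, mul_one]
    have h1 : (1 : ℝ) ≤ 2 ^ m := one_le_pow₀ (by norm_num)
    nlinarith [h l]
  induction n with
  | zero =>
    intro T l
    cases T with
    | answer o => exact hans 0 o l
    | probe σ next => exact hans 0 false l
  | succ n ih =>
    intro T l
    cases T with
    | answer o => exact hans (n + 1) o l
    | probe σ next =>
      have key : ∀ θ, H θ * (l.map fun σ => sg (bit θ σ)).prod *
          sg ((cut (n + 1) (Tree.probe σ next)).out (bit θ)) =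
          (1 / 2) * (H θ * (l.map fun σ => sg (bit θ σ)).prod *
            sg ((cut n (next true)).out (bit θ))) +
          (1 / 2) * (H θ * ((σ :: l).map fun σ => sg (bit θ σ)).prod *
            sg ((cut n (next true)).out (bit θ))) +
          (1 / 2) * (H θ * (l.map fun σ => sg (bit θ σ)).prod *
            sg ((cut n (next false)).out (bit θ))) -
          (1 / 2) * (H θ * ((σ :: l).map fun σ => sg (bit θ σ)).prod *
            sg ((cut n (next false)).out (bit θ))) := by
        intro θ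
        have h0 : (cut (n + 1) (Tree.probe σ next)).out (bit θ) =
          (cut n (next (bit θ σ))).out (bit θ) := rfl
        have hst : sg true = 1 := by simp [sg]
        have hsf : sg false = -1 := by simp [sg]
        rw [h0, List.map_cons, List.prod_cons]
        cases hb : bit θ σ
        · rw [hsf]
          ring
        · rw [hst]
          ring
      rw [Finset.sum_congr rfl fun θ _ => key θ, Finset.sum_sub_distrib, Finset.sum_add_distrib,
        Finset.sum_add_distrib, ← Finset.mul_sum, ← Finset.mul_sum, ← Finset.mul_sum,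
        ← Finset.mul_sum]
      have h1 := abs_le.1 (ih (next true) l)
      have h2 := abs_le.1 (ih (next true) (σ :: l))
      have h3 := abs_le.1 (ih (next false) l)
      have h4 := abs_le.1 (ih (next false) (σ :: l))
      rw [pow_succ, abs_le]
      constructor <;> linarith [h1.1, h1.2, h2.1, h2.2, h3.1, h3.2, h4.1, h4.2]

theorem parity_insert {α : Type} (Q : Finset α) (P : α → Prop) (x : α) (hx : x ∉ Q) :
    parity (insert x Q) P = ((decide (P x)) ^^ (parity Q P)) := by
  unfold parity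
  rw [Finset.filter_insert]
  by_cases hP : P x
  · rw [if_pos hP, Finset.card_insert_of_notMem (fun h => hx (Finset.mem_filter.1 h).1),
      decide_eq_true hP, Bool.true_xor, ← decide_not]
    congr 1
    rw [Nat.odd_add_one]
  · rw [if_neg hP, decide_eq_false hP, Bool.false_xor]

theorem prod_sg_odd {α : Type} (Q : Finset α) (P : α → Bool) :
    ∃ κ : ℝ, |κ| = 1 ∧ κ = (-1) ^ (Q.card + 1) ∧
      sg (parity Q fun q => P q = true) = κ * ∏ q ∈ Q, sg (P q) := by
  refine ⟨(-1) ^ (Q.card + 1), by simp, rfl, ?_⟩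
  induction Q using Finset.induction_on with
  | empty => simp [parity, sg]
  | insert x Q hx ih =>
    rw [Finset.prod_insert hx, Finset.card_insert_of_notMem hx]
    have h1 : parity (insert x Q) (fun q => P q = true) =
        ((P x) ^^ (parity Q fun q => P q = true)) := by
      rw [parity_insert Q _ x hx]
      simp
    rw [h1, sg_xor, ih, pow_succ _ (Q.card + 1)]
    ring

theorem prod_symmDiff {α : Type} [DecidableEq α] (A B : Finset α) (f : α → ℝ) (hf : ∀ x, f x * f x = 1) :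
    ∏ x ∈ symmDiff A B, f x = (∏ x ∈ A, f x) * ∏ x ∈ B, f x := by
  have h1 : ∏ x ∈ A, f x = (∏ x ∈ A \ B, f x) * ∏ x ∈ A ∩ B, f x := by
    rw [← Finset.prod_union (Finset.disjoint_sdiff_inter A B), Finset.sdiff_union_inter]
  have h2 : ∏ x ∈ B, f x = (∏ x ∈ B \ A, f x) * ∏ x ∈ A ∩ B, f x := by
    rw [Finset.inter_comm, ← Finset.prod_union (Finset.disjoint_sdiff_inter B A),
      Finset.sdiff_union_inter]
  have h3 : (∏ x ∈ A ∩ B, f x) * (∏ x ∈ A ∩ B, f x) = 1 := by
    rw [← Finset.prod_mul_distrib]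
    exact Finset.prod_eq_one fun x _ => hf x
  have h4 : ∏ x ∈ symmDiff A B, f x = (∏ x ∈ A \ B, f x) * ∏ x ∈ B \ A, f x := by
    have : symmDiff A B = (A \ B) ∪ (B \ A) := rfl
    rw [this, Finset.prod_union]
    rw [Finset.disjoint_left]
    intro x hx hx'
    exact (Finset.mem_sdiff.1 hx').2 (Finset.mem_sdiff.1 hx).1
  rw [h1, h2, h4]
  linear_combination (-(∏ x ∈ A \ B, f x) * ∏ x ∈ B \ A, f x) * h3

theorem sign_form {k h v c : ℕ} {R : Type} (a : R → Fin h → (Fin v → Bool) → Bool)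
    (D : Cells k h v R c) (i j : Fin k) (r₀ : R) (l : List (Fin c)) :
    ∃ (F : (Fin k → Fin h) → ℝ) (G : (Fin k → Fin v → Bool) → ℝ),
      (∀ e, |F e| ≤ 1) ∧ (∀ Y, |G Y| ≤ 1) ∧ ∀ e Y,
        sg (a r₀ (e i) (Y j)) * (l.map fun σ => sg (D.bit a e Y σ)).prod =
          F e * G Y * ∏ q ∈ l.foldr (fun σ A => symmDiff (D.Q σ) A) {(i, j, r₀)},
            sg (a q.2.2 (e q.1) (Y q.2.1)) := by
  induction l with
  | nil =>
    refine ⟨fun _ => 1, fun _ => 1, by simp, by simp, fun e Y => ?_⟩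
    simp
  | cons σ l ih =>
    obtain ⟨F, G, hF, hG, h1⟩ := ih
    refine ⟨fun e => (-1) ^ ((D.Q σ).card + 1) * sg (D.f σ e) * F e,
      fun Y => sg (D.g σ Y) * G Y, fun e => ?_, fun Y => ?_, fun e Y => ?_⟩
    · rw [abs_mul, abs_mul, sg_abs, abs_pow, abs_neg, abs_one, one_pow, one_mul, one_mul]
      exact hF e
    · rw [abs_mul, sg_abs, one_mul]
      exact hG Y
    · rw [List.map_cons, List.prod_cons, List.foldr_cons]
      have hps : ∏ q ∈ symmDiff (D.Q σ) (l.foldr (fun σ A => symmDiff (D.Q σ) A) {(i, j, r₀)}),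
            sg (a q.2.2 (e q.1) (Y q.2.1)) = (∏ q ∈ D.Q σ, sg (a q.2.2 (e q.1) (Y q.2.1))) *
          ∏ q ∈ l.foldr (fun σ A => symmDiff (D.Q σ) A) {(i, j, r₀)},
            sg (a q.2.2 (e q.1) (Y q.2.1)) :=
        prod_symmDiff _ _ (fun q : Fin k × Fin k × R => sg (a q.2.2 (e q.1) (Y q.2.1)))
          (fun q => sg_sq _)
      rw [hps]
      obtain ⟨κ, -, hκ, h2⟩ := prod_sg_odd (D.Q σ) (fun q => a q.2.2 (e q.1) (Y q.2.1))
      have h3 : sg (D.bit a e Y σ) = (-1) ^ ((D.Q σ).card + 1) *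
          (∏ q ∈ D.Q σ, sg (a q.2.2 (e q.1) (Y q.2.1))) * (sg (D.f σ e) * sg (D.g σ Y)) := by
        unfold Cells.bit
        rw [sg_xor, sg_xor, h2, hκ]
        ring
      rw [h3]
      linear_combination ((-1) ^ ((D.Q σ).card + 1) *
          (∏ q ∈ D.Q σ, sg (a q.2.2 (e q.1) (Y q.2.1))) * (sg (D.f σ e) * sg (D.g σ Y))) * h1 e Y

end CoreAux

open CoreAux

theorem core (hl : S_LIN) (hc : S_COR) : S_CORE := by
  intro k h v c t s R a μ r₀ ε hr₀ hε hdisc D hs T hT
  set N : ℝ := (h : ℝ) ^ k * 2 ^ (k * v) with hN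
  have hN0 : 0 ≤ N := by positivity
  have hcard : (∑ _e : Fin k → Fin h, ∑ _Y : Fin k → Fin v → Bool, (1 : ℝ)) = N := by
    simp only [Finset.sum_const, Finset.card_univ, Fintype.card_fun, Fintype.card_fin,
      Fintype.card_bool, nsmul_eq_mul, mul_one, hN]
    push_cast
    rw [← pow_mul, mul_comm v k]
  let X : Fin k → Fin k → (Fin k → Fin h) → (Fin k → Fin v → Bool) → ℝ := fun i j e Y =>
    sg (a r₀ (e i) (Y j)) * sg ((T i j).out (D.bit a e Y))
  let bad : Finset (Fin k × Fin k) := univ.filter fun p : Fin k × Fin k =>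
    ∃ l : List (Fin c), ∀ i' j' : Fin k,
      Even ((l.foldr (fun σ A => symmDiff (D.Q σ) A) {(p.1, p.2, r₀)}).filter
        fun q => q.1 = i' ∧ q.2.1 = j' ∧ q.2.2 ∈ μ).card
  have hbad : bad.card ≤ s := (hl k c R D.Q μ r₀ hr₀).trans hs
  have hgen : ∀ i j, ∑ e, ∑ Y, X i j e Y ≤ N := by
    intro i j
    rw [← hcard]
    refine Finset.sum_le_sum fun e _ => Finset.sum_le_sum fun Y _ => ?_
    refine (le_abs_self _).trans ?_
    change |sg (a r₀ (e i) (Y j)) * sg ((T i j).out (D.bit a e Y))| ≤ 1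
    rw [abs_mul, sg_abs, sg_abs, one_mul]
  have hgood : ∀ p : Fin k × Fin k, p ∉ bad → ∑ e, ∑ Y, X p.1 p.2 e Y ≤ 2 ^ t * (ε * N) := by
    intro p hp
    have hp' : ∀ l : List (Fin c), ∃ i' j' : Fin k,
        Odd ((l.foldr (fun σ A => symmDiff (D.Q σ) A) {(p.1, p.2, r₀)}).filter
          fun q => q.1 = i' ∧ q.2.1 = j' ∧ q.2.2 ∈ μ).card := by
      intro l
      by_contra hcon
      push Not at hcon
      apply hp
      rw [Finset.mem_filter]
      refine ⟨Finset.mem_univ _, l, fun i' j' => ?_⟩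
      exact Nat.not_odd_iff_even.1 (hcon i' j')
    have hB : ∀ l : List (Fin c),
        |∑ θ : (Fin k → Fin h) × (Fin k → Fin v → Bool), sg (a r₀ (θ.1 p.1) (θ.2 p.2)) *
          (l.map fun σ => sg (D.bit a θ.1 θ.2 σ)).prod| ≤ ε * N := by
      intro l
      obtain ⟨F, G, hF, hG, hFG⟩ := sign_form a D p.1 p.2 r₀ l
      obtain ⟨i', j', hodd⟩ := hp' l
      have h1 := hc k h v R a μ ε hdisc
        (l.foldr (fun σ A => symmDiff (D.Q σ) A) {(p.1, p.2, r₀)}) i' j' hodd F G hF hG
      rw [Fintype.sum_prod_type]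
      rw [Finset.sum_congr rfl fun e _ => Finset.sum_congr rfl fun Y _ => hFG e Y]
      exact h1
    have h2 := tree_bound (fun θ : (Fin k → Fin h) × (Fin k → Fin v → Bool) =>
      sg (a r₀ (θ.1 p.1) (θ.2 p.2))) (fun θ => D.bit a θ.1 θ.2) (ε * N) (by positivity) hB t
      (T p.1 p.2) []
    have h3 := (le_abs_self _).trans h2
    rw [Fintype.sum_prod_type] at h3
    refine le_trans (le_of_eq ?_) h3
    refine Finset.sum_congr rfl fun e _ => Finset.sum_congr rfl fun Y _ => ?_
    simp only [List.map_nil, List.prod_nil, mul_one]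
    rw [cut_out _ _ _ (hT p.1 p.2 _)]
  have hswap : ∑ e, ∑ Y, ∑ i, ∑ j, sg (a r₀ (e i) (Y j)) * sg ((T i j).out (D.bit a e Y)) =
      ∑ p : Fin k × Fin k, ∑ e, ∑ Y, X p.1 p.2 e Y := by
    rw [Fintype.sum_prod_type]
    have h1 : ∀ e, ∑ Y, ∑ i, ∑ j, X i j e Y = ∑ i, ∑ j, ∑ Y, X i j e Y := by
      intro e
      rw [Finset.sum_comm]
      exact Finset.sum_congr rfl fun i _ => Finset.sum_comm
    calc ∑ e, ∑ Y, ∑ i, ∑ j, sg (a r₀ (e i) (Y j)) * sg ((T i j).out (D.bit a e Y))
        = ∑ e, ∑ i, ∑ j, ∑ Y, X i j e Y := Finset.sum_congr rfl fun e _ => h1 e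
      _ = ∑ i, ∑ j, ∑ e, ∑ Y, X i j e Y := by
          rw [Finset.sum_comm]
          exact Finset.sum_congr rfl fun i _ => Finset.sum_comm
  rw [hswap, ← Finset.sum_filter_add_sum_filter_not univ (fun p => p ∈ bad)]
  have h1 : ∑ p with p ∈ bad, ∑ e, ∑ Y, X p.1 p.2 e Y ≤ s * N := by
    calc ∑ p with p ∈ bad, ∑ e, ∑ Y, X p.1 p.2 e Y ≤ ∑ p with p ∈ bad, N :=
          Finset.sum_le_sum fun p _ => hgen p.1 p.2
      _ = (univ.filter fun p => p ∈ bad).card * N := by rw [Finset.sum_const, nsmul_eq_mul]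
      _ ≤ s * N := by
          refine mul_le_mul_of_nonneg_right ?_ hN0
          have : (univ.filter fun p => p ∈ bad) = bad := by ext; simp
          rw [this]
          exact_mod_cast hbad
  have h2 : ∑ p with p ∉ bad, ∑ e, ∑ Y, X p.1 p.2 e Y ≤ (k : ℝ) ^ 2 * (2 ^ t * (ε * N)) := by
    calc ∑ p with p ∉ bad, ∑ e, ∑ Y, X p.1 p.2 e Y ≤ ∑ p with p ∉ bad, 2 ^ t * (ε * N) :=
          Finset.sum_le_sum fun p hp => hgood p (Finset.mem_filter.1 hp).2
      _ = (univ.filter fun p => p ∉ bad).card * (2 ^ t * (ε * N)) := by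
          rw [Finset.sum_const, nsmul_eq_mul]
      _ ≤ _ := by
          refine mul_le_mul_of_nonneg_right ?_ (by positivity)
          have h3 : (univ.filter fun p => p ∉ bad).card ≤ k ^ 2 := by
            refine (Finset.card_le_univ _).trans ?_
            rw [Fintype.card_prod, Fintype.card_fin, sq]
          exact_mod_cast h3
  calc _ ≤ s * N + (k : ℝ) ^ 2 * (2 ^ t * (ε * N)) := add_le_add h1 h2
    _ = _ := by ring

end Pool.Agent.R563.XT
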