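import Pool.Agent.R563.XT.Stm

/-! XT-DIS (helper164): Cauchy-Schwarz and orthogonal characters. -/

set_option autoImplicit false

namespace Pool.Agent.R563.XT

open Finset

namespace Dis

theorem sg_true : sg true = 1 := by simp [sg]

theorem sg_false : sg false = -1 := by simp [sg]

theorem sg_abs (b : Bool) : |sg b| = 1 := by
  cases b
  · rw [sg_false]; simp
  · rw [sg_true]; simp

theorem orth (v : ℕ) (A B : Finset (Fin v)) :
    ∑ y : Fin v → Bool, (∏ z ∈ A, sg (y z)) * (∏ z ∈ B, sg (y z)) =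
      if A = B then (2 : ℝ) ^ v else 0 := by
  have h1 : ∀ y : Fin v → Bool, (∏ z ∈ A, sg (y z)) * (∏ z ∈ B, sg (y z)) =
      ∏ z : Fin v, ((if z ∈ A then sg (y z) else 1) * (if z ∈ B then sg (y z) else 1)) := by
    intro y
    rw [Finset.prod_mul_distrib, Finset.prod_ite_mem, Finset.prod_ite_mem, Finset.univ_inter,
      Finset.univ_inter]
  rw [Finset.sum_congr rfl fun y _ => h1 y]
  have h2 := Finset.prod_univ_sum (fun _ : Fin v => (Finset.univ : Finset Bool))
    (fun z b => (if z ∈ A then sg b else 1) * (if z ∈ B then sg b else 1))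
  rw [Fintype.piFinset_univ] at h2
  rw [← h2]
  have h3 : ∀ z : Fin v, ∑ b : Bool, ((if z ∈ A then sg b else 1) * (if z ∈ B then sg b else 1)) =
      if (z ∈ A ↔ z ∈ B) then (2 : ℝ) else 0 := by
    intro z
    rw [Fintype.sum_bool, sg_true, sg_false]
    by_cases hA : z ∈ A <;> by_cases hB : z ∈ B <;> simp [hA, hB] <;> norm_num
  rw [Finset.prod_congr rfl fun z _ => h3 z]
  by_cases hAB : A = B
  · rw [if_pos hAB, hAB]
    simp
  · rw [if_neg hAB]
    have : ∃ z, ¬ (z ∈ A ↔ z ∈ B) := by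
      by_contra hcon
      push Not at hcon
      exact hAB (Finset.ext hcon)
    obtain ⟨z, hz⟩ := this
    exact Finset.prod_eq_zero (Finset.mem_univ z) (if_neg hz)

theorem cs (h v : ℕ) (P : Fin h → Finset (Fin v)) (hP : Function.Injective P)
    (F : Fin h → ℝ) (G : (Fin v → Bool) → ℝ) (hF : ∀ x, |F x| ≤ 1) (hG : ∀ y, |G y| ≤ 1) :
    |∑ x, ∑ y, F x * G y * ∏ z ∈ P x, sg (y z)| ≤ √(h : ℝ) * 2 ^ v := by
  have e1 : ∑ x, ∑ y, F x * G y * ∏ z ∈ P x, sg (y z) =
      ∑ y, G y * ∑ x, F x * ∏ z ∈ P x, sg (y z) := by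
    rw [Finset.sum_comm]
    refine Finset.sum_congr rfl fun y _ => ?_
    rw [Finset.mul_sum]
    refine Finset.sum_congr rfl fun x _ => ?_
    ring
  rw [e1]
  have hsq : ∑ y : Fin v → Bool, (∑ x, F x * ∏ z ∈ P x, sg (y z)) ^ 2 ≤ h * 2 ^ v := by
    have e2 : ∀ y : Fin v → Bool, (∑ x, F x * ∏ z ∈ P x, sg (y z)) ^ 2 =
        ∑ x, ∑ x', F x * F x' * ((∏ z ∈ P x, sg (y z)) * ∏ z ∈ P x', sg (y z)) := by
      intro y
      rw [sq, Finset.sum_mul_sum]
      refine Finset.sum_congr rfl fun x _ => ?_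
      refine Finset.sum_congr rfl fun x' _ => ?_
      ring
    rw [Finset.sum_congr rfl fun y _ => e2 y, Finset.sum_comm]
    have e3 : ∀ x : Fin h, ∑ y : Fin v → Bool, ∑ x', F x * F x' *
        ((∏ z ∈ P x, sg (y z)) * ∏ z ∈ P x', sg (y z)) = F x * F x * 2 ^ v := by
      intro x
      rw [Finset.sum_comm]
      have e4 : ∀ x' : Fin h, ∑ y : Fin v → Bool, F x * F x' *
          ((∏ z ∈ P x, sg (y z)) * ∏ z ∈ P x', sg (y z)) =
          if x = x' then F x * F x' * 2 ^ v else 0 := by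
        intro x'
        rw [← Finset.mul_sum, orth]
        by_cases hx : x = x'
        · rw [if_pos hx, if_pos (by rw [hx])]
        · rw [if_neg hx, if_neg (fun hh => hx (hP hh)), mul_zero]
      rw [Finset.sum_congr rfl fun x' _ => e4 x', Finset.sum_ite_eq]
      simp
    rw [Finset.sum_congr rfl fun x _ => e3 x, ← Finset.sum_mul]
    refine mul_le_mul_of_nonneg_right ?_ (by positivity)
    calc ∑ x : Fin h, F x * F x ≤ ∑ x : Fin h, (1 : ℝ) := by
          refine Finset.sum_le_sum fun x _ => ?_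
          have := hF x
          have h4 : F x * F x = |F x| * |F x| := (abs_mul_abs_self _).symm
          rw [h4]
          nlinarith [abs_nonneg (F x)]
      _ = h := by simp
  have hG2 : ∑ y : Fin v → Bool, (G y) ^ 2 ≤ 2 ^ v := by
    calc ∑ y : Fin v → Bool, (G y) ^ 2 ≤ ∑ y : Fin v → Bool, (1 : ℝ) := by
          refine Finset.sum_le_sum fun y _ => ?_
          have := hG y
          rw [← sq_abs]
          nlinarith [abs_nonneg (G y)]
      _ = 2 ^ v := by simp
  have hcs := Finset.sum_mul_sq_le_sq_mul_sq Finset.univ G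
    (fun y : Fin v → Bool => ∑ x, F x * ∏ z ∈ P x, sg (y z))
  have hnn : 0 ≤ ∑ y : Fin v → Bool, (∑ x, F x * ∏ z ∈ P x, sg (y z)) ^ 2 :=
    Finset.sum_nonneg fun y _ => sq_nonneg _
  have hfin : (∑ y : Fin v → Bool, G y * ∑ x, F x * ∏ z ∈ P x, sg (y z)) ^ 2 ≤
      (√(h : ℝ) * 2 ^ v) ^ 2 := by
    calc _ ≤ _ := hcs
      _ ≤ 2 ^ v * (h * 2 ^ v) := by
        exact mul_le_mul hG2 hsq hnn (by positivity)
      _ = (√(h : ℝ) * 2 ^ v) ^ 2 := by
        rw [mul_pow, Real.sq_sqrt (Nat.cast_nonneg h)]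
        ring
  exact abs_le_of_sq_le_sq hfin (by positivity)

theorem prodw (h v : ℕ) (w : Finset ℕ) (x : Fin h) :
    ∃ c : ℝ, |c| = 1 ∧ ∀ y : Fin v → Bool, ∏ r ∈ w, sg (sumAns h v r x y) =
      c * ∏ z ∈ Finset.univ.filter (fun z : Fin v => (x : ℕ) + (z : ℕ) ∈ w), sg (y z) := by
  classical
  refine ⟨∏ r ∈ w.filter (fun r => ¬ ∃ z : Fin v, (x : ℕ) + (z : ℕ) = r), (-1 : ℝ), ?_, ?_⟩
  · rw [Finset.prod_const, abs_pow]
    simp
  · intro y
    rw [← Finset.prod_filter_mul_prod_filter_not w (fun r => ∃ z : Fin v, (x : ℕ) + (z : ℕ) = r),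
      mul_comm]
    congr 1
    · refine Finset.prod_congr rfl fun r hr => ?_
      have hr' := (Finset.mem_filter.mp hr).2
      have : sumAns h v r x y = false := by
        rw [sumAns, decide_eq_false_iff_not]
        rintro ⟨z, hz, -⟩
        exact hr' ⟨z, hz⟩
      rw [this, sg_false]
    · symm
      refine Finset.prod_bij (fun (z : Fin v) _ => (x : ℕ) + (z : ℕ)) ?_ ?_ ?_ ?_
      · intro z hz
        rw [Finset.mem_filter]
        exact ⟨(Finset.mem_filter.mp hz).2, z, rfl⟩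
      · intro z _ z' _ hzz
        have hzz' : (x : ℕ) + (z : ℕ) = (x : ℕ) + (z' : ℕ) := hzz
        exact Fin.ext (by omega)
      · intro r hr
        obtain ⟨hr1, z, hz⟩ := Finset.mem_filter.mp hr
        refine ⟨z, ?_, hz⟩
        rw [Finset.mem_filter]
        exact ⟨Finset.mem_univ _, by rw [hz]; exact hr1⟩
      · intro z _
        have : sumAns h v ((x : ℕ) + (z : ℕ)) x y = y z := by
          rw [sumAns]
          by_cases hy : y z = true
          · rw [hy, decide_eq_true_iff]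
            exact ⟨z, rfl, hy⟩
          · rw [Bool.eq_false_iff.mpr hy, decide_eq_false_iff_not]
            rintro ⟨z', hz', hy'⟩
            have : z' = z := Fin.ext (by omega)
            rw [this] at hy'
            exact hy hy'
        rw [this]

end Dis

theorem dis (hw : S_WIN) : S_DIS := by
  intro h hh
  obtain ⟨μ, hμ, hinj⟩ := hw h hh
  refine ⟨μ, hμ, ?_⟩
  intro w hodd F G hF hG
  have hP := hinj w (by
    have hi : ∀ (i₁ i₂ : DecidableEq ℕ),
        Odd (@Inter.inter (Finset ℕ) (@Finset.instInter ℕ i₁) w μ).card →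
          Odd (@Inter.inter (Finset ℕ) (@Finset.instInter ℕ i₂) w μ).card := by
      intro i₁ i₂ h1
      rwa [Subsingleton.elim i₂ i₁]
    exact hi _ _ hodd)
  choose c hc hprod using fun x : Fin h => Dis.prodw h (h ^ 2) w x
  have e1 : ∑ x, ∑ y, F x * G y * ∏ r ∈ w, sg (sumAns h (h ^ 2) r x y) =
      ∑ x, ∑ y, (F x * c x) * G y *
        ∏ z ∈ Finset.univ.filter (fun z : Fin (h ^ 2) => (x : ℕ) + (z : ℕ) ∈ w), sg (y z) := by
    refine Finset.sum_congr rfl fun x _ => ?_
    refine Finset.sum_congr rfl fun y _ => ?_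
    rw [hprod x y]
    ring
  rw [e1]
  have h2 := Dis.cs h (h ^ 2)
    (fun x : Fin h => Finset.univ.filter (fun z : Fin (h ^ 2) => (x : ℕ) + (z : ℕ) ∈ w))
    (by
      intro x₁ x₂ hx
      refine hP ?_
      dsimp only at hx ⊢
      ext z
      have hz := Finset.ext_iff.mp hx z
      rw [Finset.mem_filter, Finset.mem_filter] at hz
      rw [Finset.mem_filter, Finset.mem_filter]
      exact hz) (fun x => F x * c x) G
    (fun x => by rw [abs_mul, hc x, mul_one]; exact hF x) hG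
  refine h2.trans (le_of_eq ?_)
  have hpos : (0 : ℝ) < h := by exact_mod_cast hh
  have hs : √(h : ℝ) * √(h : ℝ) = h := Real.mul_self_sqrt hpos.le
  have hs0 : √(h : ℝ) ≠ 0 := (Real.sqrt_pos.mpr hpos).ne'
  have e2 : 1 / √(h : ℝ) * ((h : ℝ) * 2 ^ (h ^ 2)) =
      1 / √(h : ℝ) * ((√(h : ℝ) * √(h : ℝ)) * 2 ^ (h ^ 2)) := by rw [hs]
  rw [e2]
  field_simp

end Pool.Agent.R563.XT
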