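import Pool.Agent.R563.XT.Stm

set_option autoImplicit false

/-!
# XT-LIN: linear algebra over the field with two elements
-/

namespace Pool.Agent.R563.XT

open Finset
open scoped Classical

namespace LIN

lemma sum_symmDiff {α : Type} [DecidableEq α] (A B : Finset α) (f : α → ZMod 2) :
    ∑ q ∈ symmDiff A B, f q = ∑ q ∈ A, f q + ∑ q ∈ B, f q := by
  have h1 : ∑ q ∈ A, f q = ∑ q ∈ A \ B, f q + ∑ q ∈ A ∩ B, f q := by
    rw [add_comm]
    exact (Finset.sum_inter_add_sum_sdiff A B f).symm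
  have h2 : ∑ q ∈ B, f q = ∑ q ∈ B \ A, f q + ∑ q ∈ A ∩ B, f q := by
    rw [add_comm, Finset.inter_comm]
    exact (Finset.sum_inter_add_sum_sdiff B A f).symm
  have h3 : ∑ q ∈ symmDiff A B, f q = ∑ q ∈ A \ B, f q + ∑ q ∈ B \ A, f q := by
    have : symmDiff A B = (A \ B) ∪ (B \ A) := rfl
    rw [this, Finset.sum_union]
    rw [Finset.disjoint_left]
    intro a ha hb
    rw [Finset.mem_sdiff] at ha hb
    exact ha.2 hb.1
  rw [h1, h2, h3]
  have h4 : (∑ q ∈ A ∩ B, f q) + ∑ q ∈ A ∩ B, f q = 0 := CharTwo.add_self_eq_zero _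
  linear_combination -h4

variable {k c : ℕ} {R : Type}

/-- the numbers of elements in the blocks, modulo `2` -/
noncomputable def M (μ : Finset R) (A : Finset (Fin k × Fin k × R)) :
    Fin k × Fin k → ZMod 2 := fun p =>
  ∑ q ∈ A, if q.1 = p.1 ∧ q.2.1 = p.2 ∧ q.2.2 ∈ μ then 1 else 0

lemma M_symmDiff (μ : Finset R) (A B : Finset (Fin k × Fin k × R)) :
    M μ (symmDiff A B) = M μ A + M μ B := by
  funext p
  rw [Pi.add_apply]
  unfold M
  exact sum_symmDiff A B _

lemma M_empty (μ : Finset R) : M μ (∅ : Finset (Fin k × Fin k × R)) = 0 := by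
  funext p
  simp [M]

lemma M_single (μ : Finset R) {r₀ : R} (h : r₀ ∈ μ) (p : Fin k × Fin k) :
    M μ {(p.1, p.2, r₀)} = Pi.single p (1 : ZMod 2) := by
  funext p'
  unfold M
  rw [Finset.sum_singleton]
  by_cases hp : p' = p
  · subst hp
    simp [h]
  · rw [Pi.single_eq_of_ne hp]
    have : ¬ (p.1 = p'.1 ∧ p.2 = p'.2 ∧ r₀ ∈ μ) := by
      rintro ⟨h1, h2, _⟩
      exact hp (Prod.ext h1.symm h2.symm)
    exact if_neg this

lemma M_foldr (μ : Finset R) (Q : Fin c → Finset (Fin k × Fin k × R))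
    (A₀ : Finset (Fin k × Fin k × R)) (l : List (Fin c)) :
    M μ (l.foldr (fun σ A => symmDiff (Q σ) A) A₀) =
      (l.map fun σ => M μ (Q σ)).sum + M μ A₀ := by
  induction l with
  | nil => simp
  | cons σ l ih =>
    rw [List.foldr_cons, M_symmDiff, ih, List.map_cons, List.sum_cons, add_assoc]

lemma M_eq_zero (μ : Finset R) (A : Finset (Fin k × Fin k × R))
    (h : ∀ i' j' : Fin k, Even (A.filter fun q => q.1 = i' ∧ q.2.1 = j' ∧ q.2.2 ∈ μ).card) :
    M μ A = 0 := by
  funext p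
  have h1 := h p.1 p.2
  unfold M
  rw [Finset.sum_ite, Finset.sum_const_zero, add_zero, Finset.sum_const, nsmul_eq_mul, mul_one]
  exact (ZMod.natCast_eq_zero_iff_even).mpr h1

end LIN

open LIN

theorem lin : S_LIN := by
  intro k c R Q μ r₀ hr
  set P := (univ.filter fun p : Fin k × Fin k => ∃ l : List (Fin c), ∀ i' j' : Fin k,
      Even ((l.foldr (fun σ A => symmDiff (Q σ) A) {(p.1, p.2, r₀)}).filter
        fun q => q.1 = i' ∧ q.2.1 = j' ∧ q.2.2 ∈ μ).card) with hP
  set N := (univ.filter fun σ : Fin c => (Q σ).Nonempty) with hN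
  let b : N → (Fin k × Fin k → ZMod 2) := fun σ => M μ (Q σ.1)
  let S : Submodule (ZMod 2) (Fin k × Fin k → ZMod 2) := Submodule.span (ZMod 2) (Set.range b)
  have hmem : ∀ σ : Fin c, M μ (Q σ) ∈ S := by
    intro σ
    by_cases h : (Q σ).Nonempty
    · apply Submodule.subset_span
      exact ⟨⟨σ, by rw [hN, Finset.mem_filter]; exact ⟨Finset.mem_univ _, h⟩⟩, rfl⟩
    · rw [Finset.not_nonempty_iff_eq_empty] at h
      rw [h, M_empty]
      exact Submodule.zero_mem _
  have hmem2 : ∀ p : P, (Pi.single p.1 (1 : ZMod 2) : Fin k × Fin k → ZMod 2) ∈ S := by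
    rintro ⟨p, hp⟩
    rw [hP, Finset.mem_filter] at hp
    obtain ⟨_, l, hl⟩ := hp
    have h1 := M_eq_zero μ _ hl
    rw [M_foldr, M_single μ hr] at h1
    have h2 : (Pi.single p (1 : ZMod 2) : Fin k × Fin k → ZMod 2) =
        - (l.map fun σ => M μ (Q σ)).sum := by
      rw [eq_neg_iff_add_eq_zero, add_comm]
      exact h1
    change (Pi.single p (1 : ZMod 2) : Fin k × Fin k → ZMod 2) ∈ S
    rw [h2]
    apply Submodule.neg_mem
    apply list_sum_mem
    intro x hx
    rw [List.mem_map] at hx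
    obtain ⟨σ, _, rfl⟩ := hx
    exact hmem σ
  let w : P → S := fun p => ⟨Pi.single p.1 1, hmem2 p⟩
  have hlin : LinearIndependent (ZMod 2) w := by
    apply LinearIndependent.of_comp S.subtype
    have h1 := ((Pi.basisFun (ZMod 2) (Fin k × Fin k)).linearIndependent).comp
      (Subtype.val : P → Fin k × Fin k) Subtype.val_injective
    convert h1 using 1
    funext p
    simp [w]
  have h1 := hlin.fintype_card_le_finrank
  have h2 : Module.finrank (ZMod 2) S ≤ Fintype.card N := finrank_range_le_card b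
  rw [Fintype.card_coe] at h1 h2
  exact h1.trans h2

end Pool.Agent.R563.XT
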