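import Mathlib

set_option autoImplicit false

/-!
# 3SUM-Indexing: structures whose bits are exclusive ors of answers and functions of one array

Statements of the pieces.
-/

namespace Pool.Agent.R563.XT

open Finset
open scoped Classical

/-- A query algorithm for a memory of `c` bits, with answers in `O`. -/
inductive Tree (c : ℕ) (O : Type) : Type
  | answer (o : O) : Tree c O
  | probe (σ : Fin c) (next : Bool → Tree c O) : Tree c O

/-- the answer if the memory is `b` -/
def Tree.out {c : ℕ} {O : Type} (b : Fin c → Bool) : Tree c O → O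
  | Tree.answer o => o
  | Tree.probe σ next => (next (b σ)).out b

/-- the number of bits read if the memory is `b` -/
def Tree.probes {c : ℕ} {O : Type} (b : Fin c → Bool) : Tree c O → ℕ
  | Tree.answer _ => 0
  | Tree.probe σ next => (next (b σ)).probes b + 1

/-- the exclusive or of the truth values `P q`, `q ∈ Q` -/
noncomputable def parity {α : Type} (Q : Finset α) (P : α → Prop) : Bool :=
  decide (Odd (Q.filter P).card)

/-! ### The core -/

/-- the sign of a truth value -/
noncomputable def sg (b : Bool) : ℝ := if b = true then 1 else -1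

/-- The data of the core: `c` cells; `Q σ` is the set of the answers `(i, j, r)` which enter the cell
`σ`; `f σ` and `g σ` are arbitrary functions of the two parts `e`, `Y` of the data. -/
structure Cells (k h v : ℕ) (R : Type) (c : ℕ) where
  Q : Fin c → Finset (Fin k × Fin k × R)
  f : Fin c → (Fin k → Fin h) → Bool
  g : Fin c → (Fin k → Fin v → Bool) → Bool

/-- the contents of the cells; the answer `(i, j, r)` is `a r (e i) (Y j)` -/
noncomputable def Cells.bit {k h v c : ℕ} {R : Type} (D : Cells k h v R c)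
    (a : R → Fin h → (Fin v → Bool) → Bool) (e : Fin k → Fin h) (Y : Fin k → Fin v → Bool)
    (σ : Fin c) : Bool :=
  (parity (D.Q σ) fun q => a q.2.2 (e q.1) (Y q.2.1) = true) ^^ ((D.f σ e) ^^ (D.g σ Y))

/-- the discrepancy of the exclusive or of the answers `r ∈ w`, for every `w` which has an odd number
of elements in `μ`, is at most `ε` -/
def Disc {h v : ℕ} {R : Type} (a : R → Fin h → (Fin v → Bool) → Bool) (μ : Finset R)
    (ε : ℝ) : Prop :=
  ∀ w : Finset R, Odd (w ∩ μ).card → ∀ (F : Fin h → ℝ) (G : (Fin v → Bool) → ℝ),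
    (∀ x, |F x| ≤ 1) → (∀ y, |G y| ≤ 1) →
      |∑ x, ∑ y, F x * G y * ∏ r ∈ w, sg (a r x y)| ≤ ε * (h * 2 ^ v)

/-- **Piece LIN** (linear algebra over the field with two elements). The number of pairs `(i, j)`
for which the exclusive or (symmetric difference) of the answer `(i, j, r₀)` and of cells of some
list has an even number of elements in `{(i', j')} × μ` for ALL blocks `(i', j')`, is at most the
number of the nonempty `Q σ`. -/
def S_LIN : Prop := ∀ (k c : ℕ) (R : Type) (Q : Fin c → Finset (Fin k × Fin k × R))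
  (μ : Finset R) (r₀ : R), r₀ ∈ μ →
  (univ.filter fun p : Fin k × Fin k => ∃ l : List (Fin c), ∀ i' j' : Fin k,
      Even ((l.foldr (fun σ A => symmDiff (Q σ) A) {(p.1, p.2, r₀)}).filter
        fun q => q.1 = i' ∧ q.2.1 = j' ∧ q.2.2 ∈ μ).card).card ≤
    (univ.filter fun σ : Fin c => (Q σ).Nonempty).card

/-- **Piece COR**. If `W` has an odd number of elements in `{(i', j')} × μ` for some block, then the
exclusive or of the answers in `W` has discrepancy at most `ε`. -/
def S_COR : Prop := ∀ (k h v : ℕ) (R : Type) (a : R → Fin h → (Fin v → Bool) → Bool)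
  (μ : Finset R) (ε : ℝ), Disc a μ ε →
  ∀ (W : Finset (Fin k × Fin k × R)) (i' j' : Fin k),
    Odd (W.filter fun q => q.1 = i' ∧ q.2.1 = j' ∧ q.2.2 ∈ μ).card →
    ∀ (F : (Fin k → Fin h) → ℝ) (G : (Fin k → Fin v → Bool) → ℝ),
      (∀ e, |F e| ≤ 1) → (∀ Y, |G Y| ≤ 1) →
      |∑ e, ∑ Y, F e * G Y * ∏ q ∈ W, sg (a q.2.2 (e q.1) (Y q.2.1))| ≤
        ε * ((h : ℝ) ^ k * 2 ^ (k * v))

/-- **Piece CORE** (from `S_LIN` and `S_COR`). -/
def S_CORE : Prop := ∀ (k h v c t s : ℕ) (R : Type) (a : R → Fin h → (Fin v → Bool) → Bool)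
  (μ : Finset R) (r₀ : R) (ε : ℝ), r₀ ∈ μ → 0 ≤ ε → Disc a μ ε →
  ∀ D : Cells k h v R c, (univ.filter fun σ : Fin c => (D.Q σ).Nonempty).card ≤ s →
  ∀ T : Fin k → Fin k → Tree c Bool, (∀ i j b, (T i j).probes b ≤ t) →
    ∑ e, ∑ Y, ∑ i, ∑ j, sg (a r₀ (e i) (Y j)) * sg ((T i j).out (D.bit a e Y)) ≤
      ((s : ℝ) + (k : ℝ) ^ 2 * (2 ^ t * ε)) * ((h : ℝ) ^ k * 2 ^ (k * v))

/-! ### The function for 3SUM-Indexing -/

/-- is `r` a sum of `x` and an element of the set `y`? -/
noncomputable def sumAns (h v : ℕ) (r : ℕ) (x : Fin h) (y : Fin v → Bool) : Bool :=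
  decide (∃ z : Fin v, (x : ℕ) + (z : ℕ) = r ∧ y z = true)

/-- **Piece WIN** (windows). There is a set `μ` of integers which contains `h` such that for every
set `w` of integers with an odd number of elements in `μ` the windows
`{z < h ^ 2 : x + z ∈ w}`, `x < h`, are different sets. -/
def S_WIN : Prop := ∀ h : ℕ, 1 ≤ h → ∃ μ : Finset ℕ, h ∈ μ ∧ ∀ w : Finset ℕ, Odd (w ∩ μ).card →
  Function.Injective fun x : Fin h => univ.filter fun z : Fin (h ^ 2) => (x : ℕ) + (z : ℕ) ∈ w

/-- **Piece DIS** (from `S_WIN`). -/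
def S_DIS : Prop := ∀ h : ℕ, 1 ≤ h → ∃ μ : Finset ℕ, h ∈ μ ∧
  Disc (sumAns h (h ^ 2)) μ (1 / √(h : ℝ))

/-! ### 3SUM-Indexing -/

/-- A data structure for two arrays of `n` integers, with `c` bits. The bit `σ` is the exclusive or of
the answers to all queries `z` in `Q σ`, of an arbitrary function `f σ` of the first array and an
arbitrary function `g σ` of the second array. The queries are adaptive. -/
structure XorSumDS (n c : ℕ) where
  Q : Fin c → Finset ℕ
  f : Fin c → (Fin n → ℕ) → Bool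
  g : Fin c → (Fin n → ℕ) → Bool
  query : ℕ → Tree c Bool

/-- the contents of the bit `σ` -/
noncomputable def XorSumDS.bit {n c : ℕ} (D : XorSumDS n c) (A B : Fin n → ℕ) (σ : Fin c) : Bool :=
  (parity (D.Q σ) fun z => ∃ i j, A i + B j = z) ^^ ((D.f σ A) ^^ (D.g σ B))

/-- the number of bits in which answers enter -/
noncomputable def XorSumDS.space {n c : ℕ} (D : XorSumDS n c) : ℕ :=
  (univ.filter fun σ : Fin c => (D.Q σ).Nonempty).card

/-- For all arrays of `n` integers from `{0, …, n ^ 3}` and all `z`, with probability at least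
`1 / 2 + δ` the random data structure `D` (probabilities `p`) decides whether `z` is the sum of an
element of the first array and an element of the second array, correctly and reading at most `t`
bits. -/
def SumSolves {n c : ℕ} {Ω : Type} [Fintype Ω] (p : Ω → ℝ) (D : Ω → XorSumDS n c) (t : ℕ)
    (δ : ℝ) : Prop :=
  (∀ ω, 0 ≤ p ω) ∧ ∑ ω, p ω = 1 ∧
    ∀ A B : Fin n → ℕ, (∀ i, A i ≤ n ^ 3) → (∀ i, B i ≤ n ^ 3) → ∀ z : ℕ,
      1 / 2 + δ ≤ ∑ ω with (((D ω).query z).out ((D ω).bit A B) = true ↔ ∃ i j, A i + B j = z) ∧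
        ((D ω).query z).probes ((D ω).bit A B) ≤ t, p ω

/-- **Theorem SUM** (from `S_CORE`, `S_DIS`). -/
def S_SUM : Prop := ∀ (n t c s : ℕ) (δ : ℝ), 0 < δ → δ ≤ 1 / 2 →
  ∀ (Ω : Type) [Fintype Ω] (p : Ω → ℝ) (D : Ω → XorSumDS n c),
    (∀ ω, (D ω).space ≤ s) → SumSolves p D t δ →
      δ ^ 9 * (n : ℝ) ^ 2 ≤ 100 * 256 ^ t * ((s : ℝ) + 1)

end Pool.Agent.R563.XT
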