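import Pool.Agent.R563.XT.Stm

set_option autoImplicit false

namespace Pool.Agent.R563.XT

open Finset
open scoped Classical

namespace SumAux

/-! ### cutting trees -/

def cut {c : ℕ} : ℕ → Tree c Bool → Tree c Bool
  | _, Tree.answer o => Tree.answer o
  | 0, Tree.probe _ _ => Tree.answer false
  | m + 1, Tree.probe σ nx => Tree.probe σ (fun b => cut m (nx b))

theorem cut_probes {c : ℕ} (b : Fin c → Bool) : ∀ (T : Tree c Bool) (m : ℕ),
    (cut m T).probes b ≤ m := by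
  intro T
  induction T with
  | answer o => intro m; cases m <;> simp [cut, Tree.probes]
  | probe σ nx ih =>
    intro m
    cases m with
    | zero => simp [cut, Tree.probes]
    | succ m =>
      simp only [cut, Tree.probes]
      have := ih (b σ) m
      omega

theorem cut_out {c : ℕ} (b : Fin c → Bool) : ∀ (T : Tree c Bool) (m : ℕ),
    T.probes b ≤ m → (cut m T).out b = T.out b := by
  intro T
  induction T with
  | answer o => intro m _; cases m <;> simp [cut]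
  | probe σ nx ih =>
    intro m hm
    simp only [Tree.probes] at hm
    cases m with
    | zero => omega
    | succ m =>
      simp only [cut, Tree.out]
      exact ih (b σ) m (by omega)

/-! ### the arrays -/

section arrays

variable {n k h v : ℕ}

def idx (hk : 0 < k) (i : Fin n) : Fin k := if hi : (i : ℕ) < k then ⟨i, hi⟩ else ⟨0, hk⟩

def arrA (hk : 0 < k) (v : ℕ) (e : Fin k → Fin h) (i : Fin n) : ℕ :=
  (h + v) * (idx hk i : ℕ) + (e (idx hk i) : ℕ)

def arrB (h : ℕ) (Y : Fin k → Fin v → Bool) (l : Fin n) : ℕ :=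
  if hl : (l : ℕ) < k * v then
    (if Y (finProdFinEquiv.symm ⟨l, hl⟩).1 (finProdFinEquiv.symm ⟨l, hl⟩).2 = true then
      (h + v) * k * ((finProdFinEquiv.symm ⟨l, hl⟩).1 : ℕ) +
        ((finProdFinEquiv.symm ⟨l, hl⟩).2 : ℕ) else n ^ 3) else n ^ 3

theorem exA (hk : 0 < k) (hkn : k ≤ n) (e : Fin k → Fin h) (P : ℕ → Prop) :
    (∃ i : Fin n, P (arrA hk v e i)) ↔ ∃ i : Fin k, P ((h + v) * (i : ℕ) + (e i : ℕ)) := by
  constructor
  · rintro ⟨i, hi⟩
    exact ⟨idx hk i, hi⟩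
  · rintro ⟨i, hi⟩
    refine ⟨⟨i, lt_of_lt_of_le i.2 hkn⟩, ?_⟩
    have : idx (n := n) hk ⟨i, lt_of_lt_of_le i.2 hkn⟩ = i := by
      simp [idx, i.2]
    rw [arrA, this]
    exact hi

theorem exB (hkv : k * v < n) (Y : Fin k → Fin v → Bool) (P : ℕ → Prop) :
    (∃ l : Fin n, P (arrB h Y l)) ↔ P (n ^ 3) ∨ ∃ (j : Fin k) (z : Fin v), Y j z = true ∧
      P ((h + v) * k * (j : ℕ) + (z : ℕ)) := by
  constructor
  · rintro ⟨l, hl⟩
    unfold arrB at hl
    split_ifs at hl with h1 h2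
    · exact Or.inr ⟨_, _, h2, hl⟩
    · exact Or.inl hl
    · exact Or.inl hl
  · rintro (hl | ⟨j, z, hY, hP⟩)
    · refine ⟨⟨n - 1, by omega⟩, ?_⟩
      have h1 : ¬ ((⟨n - 1, by omega⟩ : Fin n) : ℕ) < k * v := by simp; omega
      rw [arrB, dif_neg h1]
      exact hl
    · have h1 : ((finProdFinEquiv (j, z) : Fin (k * v)) : ℕ) < k * v := (finProdFinEquiv (j, z)).2
      refine ⟨⟨(finProdFinEquiv (j, z) : Fin (k * v)), by omega⟩, ?_⟩
      rw [arrB, dif_pos h1]
      have h2 : finProdFinEquiv.symm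
          (⟨((finProdFinEquiv (j, z) : Fin (k * v)) : ℕ), h1⟩ : Fin (k * v)) = (j, z) := by
        rw [Fin.eta, Equiv.symm_apply_apply]
      simp only [h2, hY, if_true]
      exact hP

theorem sum_iff (hk : 0 < k) (hkn : k ≤ n) (hkv : k * v < n) (e : Fin k → Fin h)
    (Y : Fin k → Fin v → Bool) (x : ℕ) :
    (∃ i j : Fin n, arrA hk v e i + arrB h Y j = x) ↔
      (∃ i : Fin k, (h + v) * (i : ℕ) + (e i : ℕ) + n ^ 3 = x) ∨
      ∃ (i j : Fin k) (z : Fin v), Y j z = true ∧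
        (h + v) * (i : ℕ) + (e i : ℕ) + ((h + v) * k * (j : ℕ) + (z : ℕ)) = x := by
  rw [exA hk hkn e (fun y => ∃ j : Fin n, y + arrB h Y j = x)]
  constructor
  · rintro ⟨i, hi⟩
    rw [exB hkv Y (fun y => (h + v) * (i : ℕ) + (e i : ℕ) + y = x)] at hi
    rcases hi with hi | ⟨j, z, hY, hz⟩
    · exact Or.inl ⟨i, hi⟩
    · exact Or.inr ⟨i, j, z, hY, hz⟩
  · rintro (⟨i, hi⟩ | ⟨i, j, z, hY, hz⟩)
    · refine ⟨i, ?_⟩
      rw [exB hkv Y (fun y => (h + v) * (i : ℕ) + (e i : ℕ) + y = x)]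
      exact Or.inl hi
    · refine ⟨i, ?_⟩
      rw [exB hkv Y (fun y => (h + v) * (i : ℕ) + (e i : ℕ) + y = x)]
      exact Or.inr ⟨j, z, hY, hz⟩

theorem blk_lt {L k i j r : ℕ} (hi : i < k) (hj : j < k) (hr : r < L) :
    L * (i + k * j) + r < L * k ^ 2 := by
  have h1 : i + k * j + 1 ≤ k ^ 2 := by nlinarith
  nlinarith [Nat.mul_le_mul_left L h1]

theorem blk_inj {L k i j r i' j' r' : ℕ} (hi : i < k) (hr : r < L)
    (hi' : i' < k) (hr' : r' < L) (h : L * (i + k * j) + r = L * (i' + k * j') + r') :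
    i = i' ∧ j = j' ∧ r = r' := by
  have hL : 0 < L := by omega
  have h1 : r = r' := by
    have := congrArg (· % L) h
    simpa [Nat.mul_add_mod, Nat.mod_eq_of_lt hr, Nat.mod_eq_of_lt hr'] using this
  have h2 : i + k * j = i' + k * j' := by
    subst h1
    have h3 : L * (i + k * j) = L * (i' + k * j') := by omega
    exact Nat.eq_of_mul_eq_mul_left hL h3
  have hk : 0 < k := by omega
  have h4 : i = i' := by
    have := congrArg (· % k) h2
    simpa [Nat.add_mul_mod_self_left, Nat.mod_eq_of_lt hi, Nat.mod_eq_of_lt hi'] using this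
  have h5 : k * j = k * j' := by omega
  exact ⟨h4, Nat.eq_of_mul_eq_mul_left hk h5, h1⟩

theorem low_iff (hk : 0 < k) (hkn : k ≤ n) (hkv : k * v < n) (e : Fin k → Fin h)
    (Y : Fin k → Fin v → Bool) (i j : Fin k) (r : ℕ) (hr : r < h + v)
    (hn : (h + v) * k ^ 2 ≤ n ^ 3) :
    (∃ i' j' : Fin n, arrA hk v e i' + arrB h Y j' = (h + v) * ((i : ℕ) + k * (j : ℕ)) + r) ↔
      sumAns h v r (e i) (Y j) = true := by
  have hlt := blk_lt (L := h + v) i.2 j.2 hr
  rw [sum_iff hk hkn hkv]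
  unfold sumAns
  rw [decide_eq_true_iff]
  constructor
  · rintro (⟨i', hi'⟩ | ⟨i', j', z, hY, hz⟩)
    · omega
    · have h1 := (e i').2
      have h2 := z.2
      have h3 : (h + v) * ((i' : ℕ) + k * (j' : ℕ)) + ((e i' : ℕ) + (z : ℕ)) =
          (h + v) * ((i : ℕ) + k * (j : ℕ)) + r := by
        rw [← hz]; ring
      obtain ⟨q1, q2, q3⟩ := blk_inj i'.2 (by omega) i.2 hr h3
      have q1' : i' = i := Fin.ext q1
      have q2' : j' = j := Fin.ext q2
      subst q1' q2'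
      exact ⟨z, q3, hY⟩
  · rintro ⟨z, hz, hY⟩
    refine Or.inr ⟨i, j, z, hY, ?_⟩
    rw [← hz]; ring

theorem lowx_iff (hk : 0 < k) (hkn : k ≤ n) (hkv : k * v < n) (e : Fin k → Fin h)
    (Y : Fin k → Fin v → Bool) (x : ℕ) (hx : x < n ^ 3) :
    (∃ i' j' : Fin n, arrA hk v e i' + arrB h Y j' = x) ↔
      ∃ (i j : Fin k) (r : ℕ), r < h + v ∧ (h + v) * ((i : ℕ) + k * (j : ℕ)) + r = x ∧
        sumAns h v r (e i) (Y j) = true := by
  rw [sum_iff hk hkn hkv]
  constructor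
  · rintro (⟨i', hi'⟩ | ⟨i', j', z, hY, hz⟩)
    · omega
    · have h1 := (e i').2
      have h2 := z.2
      refine ⟨i', j', (e i' : ℕ) + z, by omega, by rw [← hz]; ring, ?_⟩
      unfold sumAns
      rw [decide_eq_true_iff]
      exact ⟨z, rfl, hY⟩
  · rintro ⟨i, j, r, hr, hx', ha⟩
    unfold sumAns at ha
    rw [decide_eq_true_iff] at ha
    obtain ⟨z, hz, hY⟩ := ha
    refine Or.inr ⟨i, j, z, hY, ?_⟩
    rw [← hx', ← hz]; ring

theorem high_iff (hk : 0 < k) (hkn : k ≤ n) (hkv : k * v < n) (e : Fin k → Fin h)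
    (Y : Fin k → Fin v → Bool) (x : ℕ) (hx : n ^ 3 ≤ x)
    (hn : (h + v) * k ^ 2 ≤ n ^ 3) :
    (∃ i' j' : Fin n, arrA hk v e i' + arrB h Y j' = x) ↔
      ∃ i : Fin k, (h + v) * (i : ℕ) + (e i : ℕ) + n ^ 3 = x := by
  rw [sum_iff hk hkn hkv]
  constructor
  · rintro (hi' | ⟨i', j', z, hY, hz⟩)
    · exact hi'
    · exfalso
      have h1 := (e i').2
      have h2 := z.2
      have h3 : (h + v) * ((i' : ℕ) + k * (j' : ℕ)) + ((e i' : ℕ) + (z : ℕ)) = x := by
        rw [← hz]; ring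
      have h4 := blk_lt (L := h + v) (r := (e i' : ℕ) + (z : ℕ)) i'.2 j'.2 (by omega)
      omega
  · intro hi'
    exact Or.inl hi'

/-- position of an answer -/
def pos (h v k : ℕ) (q : Fin k × Fin k × ℕ) : ℕ :=
  (h + v) * ((q.1 : ℕ) + k * (q.2.1 : ℕ)) + q.2.2

/-- answers which enter a cell -/
noncomputable def QQ (h v k : ℕ) (Q : Finset ℕ) : Finset (Fin k × Fin k × ℕ) :=
  (univ ×ˢ (univ ×ˢ range (h + v))).filter fun q => pos h v k q ∈ Q

theorem odd_add_xor (a b : ℕ) : decide (Odd (a + b)) = (decide (Odd a) ^^ decide (Odd b)) := by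
  rcases Nat.even_or_odd a with ha | ha <;> rcases Nat.even_or_odd b with hb | hb
  · have h1 : ¬ Odd (a + b) := by rw [Nat.not_odd_iff_even]; exact ha.add hb
    have h2 : ¬ Odd a := Nat.not_odd_iff_even.2 ha
    have h3 : ¬ Odd b := Nat.not_odd_iff_even.2 hb
    simp [h1, h2, h3]
  · have h1 : Odd (a + b) := ha.add_odd hb
    have h2 : ¬ Odd a := Nat.not_odd_iff_even.2 ha
    simp [h1, h2, hb]
  · have h1 : Odd (a + b) := ha.add_even hb
    have h3 : ¬ Odd b := Nat.not_odd_iff_even.2 hb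
    simp [h1, ha, h3]
  · have h1 : ¬ Odd (a + b) := by rw [Nat.not_odd_iff_even]; exact ha.add_odd hb
    simp [h1, ha, hb]

theorem par_eq {α : Type} (Q : Finset α) (P : α → Prop) [DecidablePred P] :
    parity Q P = decide (Odd (Q.filter P).card) := by
  unfold parity
  have : @Finset.filter α P (fun a => Classical.propDecidable (P a)) Q = Q.filter P := by
    ext; simp
  rw [this]

theorem parity_split (hk : 0 < k) (hkn : k ≤ n) (hkv : k * v < n) (e : Fin k → Fin h)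
    (Y : Fin k → Fin v → Bool) (hn : (h + v) * k ^ 2 ≤ n ^ 3) (Q : Finset ℕ) :
    parity Q (fun x => ∃ i' j' : Fin n, arrA hk v e i' + arrB h Y j' = x) =
      ((parity (QQ h v k Q) fun q => sumAns h v q.2.2 (e q.1) (Y q.2.1) = true) ^^
        parity (Q.filter fun x => n ^ 3 ≤ x)
          (fun x => ∃ i : Fin k, (h + v) * (i : ℕ) + (e i : ℕ) + n ^ 3 = x)) := by
  rw [par_eq, par_eq, par_eq, ← odd_add_xor]
  have key : (Q.filter (fun x => ∃ i' j' : Fin n, arrA hk v e i' + arrB h Y j' = x)).card =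
      ((QQ h v k Q).filter fun q => sumAns h v q.2.2 (e q.1) (Y q.2.1) = true).card +
      ((Q.filter fun x => n ^ 3 ≤ x).filter
          (fun x => ∃ i : Fin k, (h + v) * (i : ℕ) + (e i : ℕ) + n ^ 3 = x)).card := by
    rw [← card_filter_add_card_filter_not (s := Q.filter (fun x => ∃ i' j' : Fin n,
      arrA hk v e i' + arrB h Y j' = x)) (fun x => n ^ 3 ≤ x), add_comm]
    congr 1
    · symm
      apply card_bij (fun q _ => pos h v k q)
      · intro q hq
        simp only [QQ, mem_filter, mem_product, mem_univ, true_and, mem_range] at hq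
        obtain ⟨⟨hr, hQ⟩, ha⟩ := hq
        rw [mem_filter, mem_filter]
        refine ⟨⟨hQ, (low_iff hk hkn hkv e Y q.1 q.2.1 q.2.2 hr hn).2 ha⟩, ?_⟩
        have := blk_lt (L := h + v) q.1.2 q.2.1.2 hr
        unfold pos
        omega
      · intro q hq q' hq' hqq
        simp only [QQ, mem_filter, mem_product, mem_univ, true_and, mem_range] at hq hq'
        obtain ⟨q1, q2, q3⟩ := blk_inj q.1.2 hq.1.1 q'.1.2 hq'.1.1 hqq
        exact Prod.ext (Fin.ext q1) (Prod.ext (Fin.ext q2) q3)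
      · intro x hx
        rw [mem_filter, mem_filter] at hx
        obtain ⟨⟨hQ, hs⟩, hl⟩ := hx
        obtain ⟨i, j, r, hr, hx', ha⟩ := (lowx_iff hk hkn hkv e Y x (by omega)).1 hs
        refine ⟨(i, j, r), ?_, hx'⟩
        simp only [QQ, mem_filter, mem_product, mem_univ, true_and, mem_range]
        refine ⟨⟨hr, ?_⟩, ha⟩
        unfold pos
        rw [hx']
        exact hQ
    · congr 1
      ext x
      simp only [mem_filter]
      constructor
      · rintro ⟨⟨hQ, hs⟩, hl⟩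
        exact ⟨⟨hQ, hl⟩, (high_iff hk hkn hkv e Y x hl hn).1 hs⟩
      · rintro ⟨⟨hQ, hl⟩, hs⟩
        exact ⟨⟨hQ, (high_iff hk hkn hkv e Y x hl hn).2 hs⟩, hl⟩
  rw [key]

/-- the cells of the core -/
noncomputable def cells (hk : 0 < k) {c : ℕ} (D : XorSumDS n c) : Cells k h v ℕ c where
  Q σ := QQ h v k (D.Q σ)
  f σ e := D.f σ (arrA hk v e) ^^ parity ((D.Q σ).filter fun x => n ^ 3 ≤ x)
          (fun x => ∃ i : Fin k, (h + v) * (i : ℕ) + (e i : ℕ) + n ^ 3 = x)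
  g σ Y := D.g σ (arrB h Y)

theorem cells_bit (hk : 0 < k) (hkn : k ≤ n) (hkv : k * v < n) (e : Fin k → Fin h)
    (Y : Fin k → Fin v → Bool) (hn : (h + v) * k ^ 2 ≤ n ^ 3) {c : ℕ} (D : XorSumDS n c) :
    (cells hk D : Cells k h v ℕ c).bit (sumAns h v) e Y = D.bit (arrA hk v e) (arrB h Y) := by
  funext σ
  unfold Cells.bit XorSumDS.bit
  rw [parity_split hk hkn hkv e Y hn]
  simp only [cells]
  generalize parity (QQ h v k (D.Q σ)) _ = b1
  generalize parity ((D.Q σ).filter fun x => n ^ 3 ≤ x) _ = b2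
  generalize D.f σ (arrA hk v e) = b3
  generalize D.g σ (arrB h Y) = b4
  revert b1 b2 b3 b4
  decide

theorem cells_space (hk : 0 < k) {c : ℕ} (D : XorSumDS n c) (s : ℕ) (hs : D.space ≤ s) :
    (univ.filter fun σ : Fin c => ((cells hk D : Cells k h v ℕ c).Q σ).Nonempty).card ≤ s := by
  refine le_trans (card_le_card ?_) hs
  intro σ hσ
  simp only [mem_filter, mem_univ, true_and] at hσ ⊢
  obtain ⟨q, hq⟩ := hσ
  simp only [cells, QQ, mem_filter] at hq
  exact ⟨_, hq.2⟩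

end arrays

theorem sg_mul (a b : Bool) : sg a * sg b = if a = b then 1 else -1 := by
  cases a <;> cases b <;> norm_num [sg]

/-- the averaged correlation is at least `2 δ` -/
theorem avg {Ω : Type} [Fintype Ω] (p : Ω → ℝ) (hp : ∀ ω, 0 ≤ p ω) (hp1 : ∑ ω, p ω = 1)
    (G : Ω → Prop) [DecidablePred G] (δ : ℝ) (hG : 1 / 2 + δ ≤ ∑ ω with G ω, p ω) (x : Bool) (y : Ω → Bool)
    (hxy : ∀ ω, G ω → x = y ω) : 2 * δ ≤ ∑ ω, p ω * (sg x * sg (y ω)) := by
  have h1 : ∀ ω, p ω * (2 * (if G ω then 1 else 0) - 1) ≤ p ω * (sg x * sg (y ω)) := by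
    intro ω
    apply mul_le_mul_of_nonneg_left _ (hp ω)
    rw [sg_mul]
    by_cases h : G ω
    · rw [if_pos h, if_pos (hxy ω h)]; norm_num
    · rw [if_neg h]
      split_ifs <;> norm_num
  refine le_trans ?_ (sum_le_sum fun ω _ => h1 ω)
  have h2 : ∑ ω, p ω * (2 * (if G ω then 1 else 0) - 1) =
      2 * ∑ ω with G ω, p ω - ∑ ω, p ω := by
    rw [sum_filter, mul_sum, ← sum_sub_distrib]
    apply sum_congr rfl
    intro ω _
    split_ifs <;> ring
  rw [h2, hp1]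
  linarith

end SumAux

open SumAux

theorem sum (hc : S_CORE) (hd : S_DIS) : S_SUM := by
  intro n t c s δ hδ hδ2 Ω _ p D hD hsol
  obtain ⟨hp, hp1, hcor⟩ := hsol
  -- parameters
  have hX : (4 : ℝ) ≤ 4 ^ t / δ ^ 2 := by
    rw [le_div_iff₀ (by positivity)]
    have h1 : (1 : ℝ) ≤ 4 ^ t := one_le_pow₀ (by norm_num)
    nlinarith
  obtain ⟨h, hhX⟩ : ∃ h : ℕ, h = ⌈(4 : ℝ) ^ t / δ ^ 2⌉₊ := ⟨_, rfl⟩
  have hh1 : (4 : ℝ) ^ t / δ ^ 2 ≤ h := by rw [hhX]; exact Nat.le_ceil _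
  have hh2 : (h : ℝ) ≤ 2 * (4 ^ t / δ ^ 2) := by
    have := Nat.ceil_lt_add_one (show (0 : ℝ) ≤ 4 ^ t / δ ^ 2 by positivity)
    rw [← hhX] at this
    linarith
  have hh4 : 4 ≤ h := by
    have : (4 : ℝ) ≤ h := hX.trans hh1
    exact_mod_cast this
  have h256 : (256 : ℝ) ^ t = ((4 : ℝ) ^ t) ^ 4 := by
    rw [← pow_mul, mul_comm t 4, pow_mul]; norm_num
  have hh8 : δ ^ 8 * (h : ℝ) ^ 4 ≤ 16 * 256 ^ t := by
    have h1 : (h : ℝ) * δ ^ 2 ≤ 2 * 4 ^ t := by
      have : 2 * ((4 : ℝ) ^ t / δ ^ 2) = 2 * 4 ^ t / δ ^ 2 := by ring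
      rw [this, le_div_iff₀ (by positivity)] at hh2
      exact hh2
    have h2 : ((h : ℝ) * δ ^ 2) ^ 4 ≤ (2 * 4 ^ t) ^ 4 := pow_le_pow_left₀ (by positivity) h1 4
    calc δ ^ 8 * (h : ℝ) ^ 4 = ((h : ℝ) * δ ^ 2) ^ 4 := by ring
      _ ≤ (2 * 4 ^ t) ^ 4 := h2
      _ = 16 * 256 ^ t := by rw [h256]; ring
  have hs0 : (0 : ℝ) ≤ s := by positivity
  have h256p : (0 : ℝ) < 256 ^ t := by positivity
  set v : ℕ := h ^ 2 with hv
  have hv16 : 16 ≤ v := by rw [hv]; nlinarith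
  by_cases hnv : n < 2 * v
  · have h1 : (n : ℝ) < 2 * (h : ℝ) ^ 2 := by
      have : ((n : ℕ) : ℝ) < ((2 * v : ℕ) : ℝ) := by exact_mod_cast hnv
      rw [hv] at this
      push_cast at this
      exact this
    have h2 : (n : ℝ) ^ 2 ≤ 4 * (h : ℝ) ^ 4 := by
      have h3 : (n : ℝ) ^ 2 ≤ (2 * (h : ℝ) ^ 2) ^ 2 := pow_le_pow_left₀ (by positivity) h1.le 2
      calc (n : ℝ) ^ 2 ≤ (2 * (h : ℝ) ^ 2) ^ 2 := h3
        _ = 4 * (h : ℝ) ^ 4 := by ring
    have h4 : δ ^ 8 * (n : ℝ) ^ 2 ≤ 64 * 256 ^ t := by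
      calc δ ^ 8 * (n : ℝ) ^ 2 ≤ δ ^ 8 * (4 * (h : ℝ) ^ 4) :=
            mul_le_mul_of_nonneg_left h2 (by positivity)
        _ = 4 * (δ ^ 8 * (h : ℝ) ^ 4) := by ring
        _ ≤ 4 * (16 * 256 ^ t) := by linarith
        _ = 64 * 256 ^ t := by ring
    calc δ ^ 9 * (n : ℝ) ^ 2 = δ * (δ ^ 8 * (n : ℝ) ^ 2) := by ring
      _ ≤ 1 * (64 * 256 ^ t) := mul_le_mul (by linarith) h4 (by positivity) (by norm_num)
      _ ≤ 100 * 256 ^ t * ((s : ℝ) + 1) := by nlinarith
  · push Not at hnv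
    -- number of blocks
    obtain ⟨k, hkdef⟩ : ∃ k : ℕ, k = (n - 1) / v := ⟨_, rfl⟩
    have hkv1 : k * v ≤ n - 1 := by rw [hkdef]; exact Nat.div_mul_le_self _ _
    have hkv : k * v < n := by omega
    have hkv2 : n ≤ (k + 1) * v := by
      have := Nat.lt_div_mul_add (a := n - 1) (b := v) (by omega)
      rw [← hkdef] at this
      have h2 : (k + 1) * v = k * v + v := by ring
      omega
    have hk : 0 < k := by
      rcases Nat.eq_zero_or_pos k with h0 | h0
      · rw [h0] at hkv2; omega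
      · exact h0
    have hkn : k ≤ n := by nlinarith
    have hLk : (h + v) * k ^ 2 ≤ n ^ 3 := by
      have h1 : h + v ≤ 2 * v := by rw [hv]; nlinarith
      have h2 : (h + v) * k ^ 2 ≤ 2 * v * k ^ 2 := Nat.mul_le_mul_right _ h1
      have h3 : 2 * v * k ^ 2 = 2 * (k * v) * k := by ring
      have h4 : 2 * (k * v) * k ≤ 2 * n * n := by
        apply Nat.mul_le_mul _ hkn
        omega
      have h5 : 2 * n * n ≤ n ^ 3 := by
        have : 2 ≤ n := by omega
        calc 2 * n * n ≤ n * n * n := by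
              apply Nat.mul_le_mul_right
              exact Nat.mul_le_mul_right _ this
          _ = n ^ 3 := by ring
      omega
    have hAle : ∀ (e : Fin k → Fin h) (i : Fin n), arrA hk v e i ≤ n ^ 3 := by
      intro e i
      have h1 := (idx hk i).2
      have h2 := (e (idx hk i)).2
      have h3 := blk_lt (L := h + v) (k := k) (j := 0) (r := (e (idx hk i) : ℕ)) h1 hk (by omega)
      unfold arrA
      simp only [mul_zero, add_zero] at h3
      omega
    have hBle : ∀ (Y : Fin k → Fin v → Bool) (i : Fin n), arrB h Y i ≤ n ^ 3 := by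
      intro Y i
      unfold arrB
      split_ifs with h1 h2
      · have h3 := blk_lt (L := h + v) (k := k) (i := 0)
          (j := ((finProdFinEquiv.symm ⟨(i : ℕ), h1⟩).1 : ℕ))
          (r := ((finProdFinEquiv.symm ⟨(i : ℕ), h1⟩).2 : ℕ)) hk
          (finProdFinEquiv.symm ⟨(i : ℕ), h1⟩).1.2
          (by have := (finProdFinEquiv.symm ⟨(i : ℕ), h1⟩).2.2; omega)
        rw [zero_add, ← mul_assoc] at h3
        omega
      · exact le_rfl
      · exact le_rfl
    obtain ⟨μ, hμ, hdisc⟩ := hd h (by omega)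
    -- the core for every ω
    have hcore : ∀ ω, ∑ e : Fin k → Fin h, ∑ Y : Fin k → Fin v → Bool, ∑ i, ∑ j,
        sg (sumAns h v h (e i) (Y j)) *
          sg ((cut t ((D ω).query ((h + v) * ((i : ℕ) + k * (j : ℕ)) + h))).out
            ((D ω).bit (arrA hk v e) (arrB h Y))) ≤
        ((s : ℝ) + (k : ℝ) ^ 2 * (2 ^ t * (1 / √(h : ℝ)))) * ((h : ℝ) ^ k * 2 ^ (k * v)) := by
      intro ω
      have := hc k h v c t s ℕ (sumAns h v) μ h (1 / √(h : ℝ)) hμ (by positivity) hdisc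
        (cells hk (D ω)) (cells_space hk (D ω) s (hD ω))
        (fun i j => cut t ((D ω).query ((h + v) * ((i : ℕ) + k * (j : ℕ)) + h)))
        (fun i j b => cut_probes b _ t)
      have hbit : ∀ (e : Fin k → Fin h) (Y : Fin k → Fin v → Bool),
          (cells hk (D ω) : Cells k h v ℕ c).bit (sumAns h v) e Y =
            (D ω).bit (arrA hk v e) (arrB h Y) := fun e Y => cells_bit hk hkn hkv e Y hLk (D ω)
      simp only [hbit] at this
      exact this
    have hε : (2 : ℝ) ^ t * (1 / √(h : ℝ)) ≤ δ := by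
      have h1 : (2 : ℝ) ^ t / δ ≤ √(h : ℝ) := by
        apply Real.le_sqrt_of_sq_le
        have : ((2 : ℝ) ^ t / δ) ^ 2 = 4 ^ t / δ ^ 2 := by
          rw [div_pow, ← pow_mul, mul_comm t 2, pow_mul]; norm_num
        rw [this]
        exact hh1
      have h2 : 0 < √(h : ℝ) := by
        apply Real.sqrt_pos.2
        have : (4 : ℝ) ≤ h := hX.trans hh1
        linarith
      rw [mul_one_div, div_le_iff₀ h2]
      rw [div_le_iff₀ hδ] at h1
      linarith
    -- averaging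
    have hpt : ∀ (e : Fin k → Fin h) (Y : Fin k → Fin v → Bool) (i j : Fin k),
        2 * δ ≤ ∑ ω, p ω * (sg (sumAns h v h (e i) (Y j)) *
          sg ((cut t ((D ω).query ((h + v) * ((i : ℕ) + k * (j : ℕ)) + h))).out
            ((D ω).bit (arrA hk v e) (arrB h Y)))) := by
      intro e Y i j
      apply avg p hp hp1 _ δ (hcor (arrA hk v e) (arrB h Y) (hAle e) (hBle Y)
        ((h + v) * ((i : ℕ) + k * (j : ℕ)) + h))
      rintro ω ⟨hω1, hω2⟩
      rw [cut_out _ _ t hω2]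
      have h1 := low_iff hk hkn hkv e Y i j h (by omega) hLk
      rw [h1] at hω1
      rw [Bool.eq_iff_iff]
      exact hω1.symm
    have htotal : (∑ e : Fin k → Fin h, ∑ Y : Fin k → Fin v → Bool, ∑ i : Fin k, ∑ j : Fin k,
        2 * δ) ≤ ∑ ω, p ω * (((s : ℝ) + (k : ℝ) ^ 2 * (2 ^ t * (1 / √(h : ℝ)))) *
          ((h : ℝ) ^ k * 2 ^ (k * v))) := by
      calc (∑ e : Fin k → Fin h, ∑ Y : Fin k → Fin v → Bool, ∑ i : Fin k, ∑ j : Fin k, 2 * δ)
          ≤ ∑ e : Fin k → Fin h, ∑ Y : Fin k → Fin v → Bool, ∑ i : Fin k, ∑ j : Fin k,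
            ∑ ω, p ω * (sg (sumAns h v h (e i) (Y j)) *
            sg ((cut t ((D ω).query ((h + v) * ((i : ℕ) + k * (j : ℕ)) + h))).out
            ((D ω).bit (arrA hk v e) (arrB h Y)))) :=
            sum_le_sum fun e _ => sum_le_sum fun Y _ => sum_le_sum fun i _ =>
              sum_le_sum fun j _ => hpt e Y i j
        _ = ∑ ω, p ω * ∑ e : Fin k → Fin h, ∑ Y : Fin k → Fin v → Bool, ∑ i : Fin k, ∑ j : Fin k,
            (sg (sumAns h v h (e i) (Y j)) *
            sg ((cut t ((D ω).query ((h + v) * ((i : ℕ) + k * (j : ℕ)) + h))).out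
            ((D ω).bit (arrA hk v e) (arrB h Y)))) := by
            simp only [mul_sum]
            have e1 : ∀ (e : Fin k → Fin h) (Y : Fin k → Fin v → Bool) (i : Fin k)
                (F : Fin k → Ω → ℝ), ∑ j, ∑ ω, F j ω = ∑ ω, ∑ j, F j ω :=
              fun e Y i F => sum_comm
            rw [sum_comm (s := (univ : Finset Ω))]
            apply sum_congr rfl; intro e _
            rw [sum_comm (s := (univ : Finset Ω))]
            apply sum_congr rfl; intro Y _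
            rw [sum_comm (s := (univ : Finset Ω))]
            apply sum_congr rfl; intro i _
            rw [sum_comm (s := (univ : Finset Ω))]
        _ ≤ _ := sum_le_sum fun ω _ => mul_le_mul_of_nonneg_left (hcore ω) (hp ω)
    rw [show ∑ ω, p ω * (((s : ℝ) + (k : ℝ) ^ 2 * (2 ^ t * (1 / √(h : ℝ)))) *
          ((h : ℝ) ^ k * 2 ^ (k * v))) = ((s : ℝ) + (k : ℝ) ^ 2 * (2 ^ t * (1 / √(h : ℝ)))) *
          ((h : ℝ) ^ k * 2 ^ (k * v)) by rw [← sum_mul, hp1, one_mul]] at htotal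
    have hcard : (∑ e : Fin k → Fin h, ∑ Y : Fin k → Fin v → Bool, ∑ i : Fin k, ∑ j : Fin k,
        2 * δ) = 2 * δ * (k : ℝ) ^ 2 * ((h : ℝ) ^ k * 2 ^ (k * v)) := by
      simp only [sum_const, card_univ, Fintype.card_fin, Fintype.card_pi, Fintype.card_bool,
        prod_const, nsmul_eq_mul]
      push_cast
      rw [← pow_mul, mul_comm v k]
      ring
    rw [hcard] at htotal
    have hposN : (0 : ℝ) < (h : ℝ) ^ k * 2 ^ (k * v) := by
      have : (0 : ℝ) < h := by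
        have : (4 : ℝ) ≤ h := hX.trans hh1
        linarith
      positivity
    have hmain : 2 * δ * (k : ℝ) ^ 2 ≤ (s : ℝ) + (k : ℝ) ^ 2 * (2 ^ t * (1 / √(h : ℝ))) :=
      le_of_mul_le_mul_right htotal hposN
    have hk2 : (0 : ℝ) ≤ (k : ℝ) ^ 2 := by positivity
    have hfin : δ * (k : ℝ) ^ 2 ≤ s := by
      nlinarith [mul_le_mul_of_nonneg_left hε hk2]
    -- k ≥ n / (2 v)
    have hkn2 : (n : ℝ) ≤ 2 * (k : ℝ) * (h : ℝ) ^ 2 := by
      have h1 : n ≤ 2 * k * v := by nlinarith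
      have h2 : ((n : ℕ) : ℝ) ≤ ((2 * k * v : ℕ) : ℝ) := by exact_mod_cast h1
      rw [hv] at h2
      push_cast at h2
      exact h2
    have hn2 : (n : ℝ) ^ 2 ≤ 4 * (k : ℝ) ^ 2 * (h : ℝ) ^ 4 := by
      have h1 := pow_le_pow_left₀ (by positivity) hkn2 2
      calc (n : ℝ) ^ 2 ≤ (2 * (k : ℝ) * (h : ℝ) ^ 2) ^ 2 := h1
        _ = 4 * (k : ℝ) ^ 2 * (h : ℝ) ^ 4 := by ring
    calc δ ^ 9 * (n : ℝ) ^ 2 ≤ δ ^ 9 * (4 * (k : ℝ) ^ 2 * (h : ℝ) ^ 4) :=
          mul_le_mul_of_nonneg_left hn2 (by positivity)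
      _ = 4 * (δ * (k : ℝ) ^ 2) * (δ ^ 8 * (h : ℝ) ^ 4) := by ring
      _ ≤ 4 * s * (16 * 256 ^ t) := by
          apply mul_le_mul (by linarith) hh8 (by positivity) (by positivity)
      _ ≤ 100 * 256 ^ t * ((s : ℝ) + 1) := by nlinarith [mul_nonneg hs0 h256p.le]

end Pool.Agent.R563.XT
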