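import Pool.Agent.R563.XT.Stm

/-! XT-WIN (helper164): windows, from the polynomial `∏ (X ^ d - 1)` over `ZMod 2`. -/

set_option autoImplicit false

namespace Pool.Agent.R563.XT

open Finset Polynomial

namespace Win

/-- evaluation of a polynomial (in the shift) on a sequence, at the place `n` -/
noncomputable def Phi (W : ℕ → ZMod 2) (n : ℕ) : (ZMod 2)[X] →ₗ[ZMod 2] ZMod 2 :=
  Polynomial.lsum (fun i => LinearMap.mulRight (ZMod 2) (W (n + i)))

theorem Phi_apply (W : ℕ → ZMod 2) (n : ℕ) (q : (ZMod 2)[X]) :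
    Phi W n q = ∑ i ∈ q.support, q.coeff i * W (n + i) := by
  rw [Phi, Polynomial.lsum_apply, Polynomial.sum_def]
  rfl

theorem Phi_monomial (W : ℕ → ZMod 2) (n i : ℕ) (c : ZMod 2) :
    Phi W n (Polynomial.monomial i c) = c * W (n + i) := by
  rw [Phi, Polynomial.lsum_apply, Polynomial.sum_monomial_index]
  · rfl
  · simp

theorem Phi_shift (W : ℕ → ZMod 2) (n d : ℕ) (q : (ZMod 2)[X]) :
    Phi W n (X ^ d * q) = Phi W (n + d) q := by
  induction q using Polynomial.induction_on' with
  | add p q hp hq => rw [mul_add, map_add, map_add, hp, hq]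
  | monomial i c =>
    rw [Polynomial.X_pow_mul_monomial, Phi_monomial, Phi_monomial]
    congr 2
    omega

/-- the polynomial -/
noncomputable def Pol (h : ℕ) : (ZMod 2)[X] := ∏ d ∈ Finset.Icc 1 (h - 1), (X ^ d - 1)

theorem Pol_coeff_zero (h : ℕ) : (Pol h).coeff 0 ≠ 0 := by
  rw [Pol, Polynomial.coeff_zero_eq_eval_zero, Polynomial.eval_prod, Finset.prod_ne_zero_iff]
  intro d hd
  have hd1 : d ≠ 0 := by
    have := (Finset.mem_Icc.mp hd).1
    omega
  rw [Polynomial.eval_sub, Polynomial.eval_pow, Polynomial.eval_X, Polynomial.eval_one,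
    zero_pow hd1, zero_sub]
  decide

theorem natDegree_fac (d : ℕ) : ((X : (ZMod 2)[X]) ^ d - 1).natDegree ≤ d := by
  refine (Polynomial.natDegree_sub_le _ _).trans ?_
  rw [Polynomial.natDegree_X_pow, Polynomial.natDegree_one]
  exact max_le le_rfl (Nat.zero_le _)

theorem sum_Icc_le (h : ℕ) : 2 * ∑ d ∈ Finset.Icc 1 (h - 1), d ≤ h * (h - 1) := by
  induction h with
  | zero => simp
  | succ n ih =>
    rcases Nat.eq_zero_or_pos n with h0 | hpos
    · subst h0
      simp
    · have e1 : n + 1 - 1 = (n - 1) + 1 := by omega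
      rw [e1, Finset.sum_Icc_succ_top (by omega), mul_add]
      obtain ⟨k, rfl⟩ : ∃ k, n = k + 1 := ⟨n - 1, by omega⟩
      simp only [Nat.add_sub_cancel] at ih ⊢
      nlinarith

/-- the set of the coefficients -/
noncomputable def mu (h : ℕ) : Finset ℕ := (Pol h).support.map (addLeftEmbedding h)

theorem key (h : ℕ) (w : Finset ℕ) (hodd : Odd ((mu h).filter (fun n => n ∈ w)).card)
    (x d : ℕ) (hd : 1 ≤ d) (hxd : x + d < h)
    (heq : ∀ z < h ^ 2, (x + z ∈ w ↔ x + d + z ∈ w)) : False := by
  set W : ℕ → ZMod 2 := fun n => if n ∈ w then 1 else 0 with hW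
  have hPhi1 : Phi W h (Pol h) = 1 := by
    rw [Phi_apply]
    have h1 : ∑ i ∈ (Pol h).support, (Pol h).coeff i * W (h + i) = ∑ n ∈ mu h, W n := by
      rw [mu, Finset.sum_map]
      refine Finset.sum_congr rfl fun i hi => ?_
      have hc : (Pol h).coeff i ≠ 0 := Polynomial.mem_support_iff.mp hi
      have hc1 : (Pol h).coeff i = 1 := by
        generalize (Pol h).coeff i = c at hc
        revert c
        decide
      rw [hc1, one_mul]
      rfl
    rw [h1, hW, Finset.sum_boole]
    exact (ZMod.natCast_eq_one_iff_odd).mpr hodd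
  have hmem : d ∈ Finset.Icc 1 (h - 1) := by
    rw [Finset.mem_Icc]; omega
  set q : (ZMod 2)[X] := ∏ d' ∈ (Finset.Icc 1 (h - 1)).erase d, (X ^ d' - 1) with hq
  have hPq : Pol h = (X ^ d - 1) * q := by
    rw [Pol, hq]
    exact (Finset.mul_prod_erase _ (fun d' => (X : (ZMod 2)[X]) ^ d' - 1) hmem).symm
  have hdeg : q.natDegree ≤ ∑ d' ∈ (Finset.Icc 1 (h - 1)).erase d, d' := by
    refine (Polynomial.natDegree_prod_le _ _).trans ?_
    exact Finset.sum_le_sum fun d' _ => natDegree_fac d'
  have hsum : d + ∑ d' ∈ (Finset.Icc 1 (h - 1)).erase d, d' = ∑ d' ∈ Finset.Icc 1 (h - 1), d' :=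
    Finset.add_sum_erase _ (fun d' => d') hmem
  have hle := sum_Icc_le h
  have hPhi0 : Phi W h (Pol h) = 0 := by
    have e1 : (X ^ d - 1) * q = X ^ d * q - q := by ring
    rw [hPq, e1, map_sub, Phi_shift, Phi_apply, Phi_apply, sub_eq_zero]
    refine Finset.sum_congr rfl fun i hi => ?_
    have hi' : i ≤ q.natDegree := Polynomial.le_natDegree_of_mem_supp i hi
    have hz : h + i - x < h ^ 2 := by
      obtain ⟨k, rfl⟩ : ∃ k, h = k + 1 := ⟨h - 1, by omega⟩
      simp only [Nat.add_sub_cancel] at hle hsum hdeg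
      have : k + 1 + i < (k + 1) ^ 2 + x := by nlinarith
      omega
    have h2 := heq (h + i - x) hz
    have e2 : x + (h + i - x) = h + i := by omega
    have e3 : x + d + (h + i - x) = h + d + i := by omega
    rw [e2, e3] at h2
    have h3 : W (h + d + i) = W (h + i) := by
      rw [hW]
      simp only [h2]
    rw [h3]
  rw [hPhi0] at hPhi1
  exact absurd hPhi1 (by decide)

end Win

theorem win : S_WIN := by
  intro h hh
  refine ⟨Win.mu h, ?_, ?_⟩
  · rw [Win.mu, Finset.mem_map]
    exact ⟨0, Polynomial.mem_support_iff.mpr (Win.Pol_coeff_zero h), by simp⟩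
  · intro w hodd
    have hodd' : Odd ((Win.mu h).filter (fun n => n ∈ w)).card := by
      have : (Win.mu h).filter (fun n => n ∈ w) = w ∩ Win.mu h := by
        ext n
        simp [and_comm]
      rw [this]
      exact hodd
    intro x x' hxx
    have hiff : ∀ z < h ^ 2, ((x : ℕ) + z ∈ w ↔ (x' : ℕ) + z ∈ w) := by
      intro z hz
      have := congrArg (fun s => (⟨z, hz⟩ : Fin (h ^ 2)) ∈ s) hxx
      simpa using this
    rcases lt_trichotomy (x : ℕ) (x' : ℕ) with hlt | heq | hgt
    · exfalso
      refine Win.key h w hodd' x (x' - x) (by omega) (by have := x'.2; omega) ?_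
      intro z hz
      have e : (x : ℕ) + (x' - x) = x' := by omega
      rw [e]
      exact hiff z hz
    · exact Fin.ext heq
    · exfalso
      refine Win.key h w hodd' x' (x - x') (by omega) (by have := x.2; omega) ?_
      intro z hz
      have e : (x' : ℕ) + (x - x') = x := by omega
      rw [e]
      exact (hiff z hz).symm

end Pool.Agent.R563.XT
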